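import Pool.Agent.Q103.SF.Disc
import Pool.Agent.Q103.SF.Defs2
import Pool.Agent.Q111.SF.Cls
import Pool.Agent.Q24.SF.W3
import Pool.Agent.Q95.SF.Wei
import Pool.Agent.Q239.SF.W5
import Pool.Agent.Q285.SFG.Gpc
import Pool.Agent.Y221.PD.Imp

/-!
Curves of genus `≤ 1` and entire curves in surfaces.

The theorems of this file, up to `entire_low`, are those of the starting files
`Pool/Agent/Q103/SF/Ell.lean`, `Pool/Agent/Q103/SF/Conv.lean` and `Pool/Agent/Q103/SF/Ent.lean` (with
their proofs), repeated here with fewer imports.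
-/

set_option autoImplicit false
set_option maxHeartbeats 400000
set_option linter.overlappingInstances false
set_option linter.unusedSectionVars false

namespace Run7.h493.SR

open FF IntermediateField
open Pool.Agent.W602.GT
open Pool.Agent.Y216 (OnVar)
open Pool.Agent.W603.LV (canDeg)
open Pool.Agent.Q271.RC (Nonconst)
open Pool.Agent.Q103.SF (IsElliptic S_gpc S_wei S_low S_kob S_cls van vanOn lowCurves disc_low
  KobayashiHyp BrodyHyp NoMero NoElliptic)

theorem top_of {E : Type} [Field E] [Algebra ℂ E] {x y : E} (F : IntermediateField ℂ E) (hx : x ∈ F)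
    (hgen : adjoin ℂ ({x, y} : Set E) = ⊤) : adjoin F ({y} : Set E) = ⊤ := by
  rw [eq_top_iff]
  intro z _
  have hz : z ∈ adjoin ℂ ({x, y} : Set E) := by rw [hgen]; exact mem_top
  have hle : adjoin ℂ ({x, y} : Set E) ≤ (adjoin F ({y} : Set E)).restrictScalars ℂ := by
    rw [adjoin_le_iff]
    intro w hw
    rw [SetLike.mem_coe, mem_restrictScalars]
    rcases hw with rfl | hw
    · have h1 := (adjoin F ({y} : Set E)).algebraMap_mem ⟨w, hx⟩
      exact h1
    · rw [Set.mem_singleton_iff] at hw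
      rw [hw]
      exact subset_adjoin _ _ rfl
  exact hle hz

theorem isFF_of_sq {E : Type} [Field E] [Algebra ℂ E] {x y : E} (hx : Transcendental ℂ x) {a b : ℂ}
    (hy : y ^ 2 = x ^ 3 + algebraMap ℂ E a * x + algebraMap ℂ E b)
    (hgen : adjoin ℂ ({x, y} : Set E) = ⊤) : IsFF ℂ E := by
  refine IsFF.of_finite hx ?_
  obtain ⟨F, hF⟩ : ∃ F, F = adjoin ℂ ({x} : Set E) := ⟨_, rfl⟩
  rw [← hF]
  have hxF : x ∈ F := by rw [hF]; exact subset_adjoin ℂ _ rfl
  have hint : IsIntegral F y := by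
    have h2 : y ^ 2 ∈ F := by
      rw [hy]
      exact add_mem (add_mem (pow_mem hxF 3) (mul_mem (IntermediateField.algebraMap_mem _ a) hxF))
        (IntermediateField.algebraMap_mem _ b)
    have h1 : IsIntegral F (y ^ 2) := isIntegral_algebraMap (R := F) (A := E) (x := ⟨y ^ 2, h2⟩)
    exact IsIntegral.of_pow two_pos h1
  have hfin := adjoin.finiteDimensional hint
  rw [top_of F hxF hgen] at hfin
  exact (topEquiv (F := F) (E := E)).toLinearEquiv.finiteDimensional

theorem adjoin_self_top {Ω : Type} [Field Ω] [Algebra ℂ Ω] {x y : Ω} (E : IntermediateField ℂ Ω)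
    (hE : E = adjoin ℂ {x, y}) (hx : x ∈ E) (hy : y ∈ E) :
    adjoin ℂ ({⟨x, hx⟩, ⟨y, hy⟩} : Set E) = ⊤ := by
  have h1 : (adjoin ℂ ({⟨x, hx⟩, ⟨y, hy⟩} : Set E)).map E.val =
      (⊤ : IntermediateField ℂ E).map E.val := by
    rw [adjoin_map]
    have h2 : (E.val '' {⟨x, hx⟩, ⟨y, hy⟩} : Set Ω) = {x, y} := by
      rw [Set.image_pair]
      rfl
    rw [h2, ← hE]
    apply le_antisymm
    · intro z hz
      exact ⟨⟨z, hz⟩, trivial, rfl⟩
    · rintro z ⟨w, -, rfl⟩
      exact w.2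
  exact map_injective E.val h1

/-- a field generated by a point of an elliptic curve -/
theorem ell_of_gen {Ω : Type} [Field Ω] [Algebra ℂ Ω] {τ y : Ω} (ht : Transcendental ℂ τ) {a b : ℂ}
    (hab : 4 * a ^ 3 + 27 * b ^ 2 ≠ 0)
    (hy : y ^ 2 = τ ^ 3 + algebraMap ℂ Ω a * τ + algebraMap ℂ Ω b)
    (E : IntermediateField ℂ Ω) (hE : E = adjoin ℂ {τ, y}) : IsFF ℂ E ∧ IsElliptic E := by
  have hτ : τ ∈ E := by rw [hE]; exact subset_adjoin ℂ _ (by simp)
  have hyE : y ∈ E := by rw [hE]; exact subset_adjoin ℂ _ (by simp)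
  have hgen := adjoin_self_top E hE hτ hyE
  have hy' : (⟨y, hyE⟩ : E) ^ 2 = (⟨τ, hτ⟩ : E) ^ 3 + algebraMap ℂ E a * (⟨τ, hτ⟩ : E) +
      algebraMap ℂ E b := by
    apply E.val.injective
    simp only [map_pow, map_add, map_mul]
    exact hy
  have ht' : Transcendental ℂ (⟨τ, hτ⟩ : E) := by
    intro h
    exact ht (IsAlgebraic.algHom E.val h)
  exact ⟨isFF_of_sq ht' hy' hgen, a, b, _, _, hab, hy', hgen⟩

/-- **Curves of genus `≤ 1` are images of elliptic curves.** -/
theorem exists_ell {L : Type} [Field L] [Algebra ℂ L] [IsFF ℂ L] (h : canDeg ℂ L ≤ 0) :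
    ∃ (E : Type) (_ : Field E) (_ : Algebra ℂ E) (_ : IsFF ℂ E) (_ : L →ₐ[ℂ] E),
      IsElliptic E := by
  rcases Pool.Agent.Q111.SF.cls L h with ⟨t, ht⟩ | ⟨a, b, x, y, hab, hy, hgen⟩
  · have htt : Transcendental ℂ t := by
      intro halg
      obtain ⟨f, hf⟩ := IsFF.exists_transcendental (k := ℂ) (K := L)
      have hfm : f ∈ adjoin ℂ ({t} : Set L) := by rw [ht]; exact mem_top
      have h0 := isAlgebraic_adjoin_simple (K := ℂ) halg.isIntegral
      exact hf (IsAlgebraic.algHom (adjoin ℂ ({t} : Set L)).val (h0.isAlgebraic ⟨f, hfm⟩))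
    let Ω := AlgebraicClosure L
    let τ : Ω := algebraMap L Ω t
    have hτ : Transcendental ℂ τ := by
      intro h1
      exact htt ((isAlgebraic_algebraMap_iff (algebraMap L Ω).injective).1 h1)
    obtain ⟨y, hy⟩ := IsAlgClosed.exists_pow_nat_eq (τ ^ 3 + algebraMap ℂ Ω 0 * τ + algebraMap ℂ Ω 1)
      two_pos
    obtain ⟨h1, h2⟩ := ell_of_gen (a := 0) (b := 1) hτ (by norm_num) hy _ rfl
    have hle : ∀ l : L, algebraMap L Ω l ∈ (adjoin ℂ {τ, y} : IntermediateField ℂ Ω) := by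
      intro l
      have hl : l ∈ adjoin ℂ ({t} : Set L) := by rw [ht]; exact mem_top
      have h3 : algebraMap L Ω l ∈ (adjoin ℂ ({t} : Set L)).map (IsScalarTower.toAlgHom ℂ L Ω) :=
        ⟨l, hl, rfl⟩
      rw [adjoin_map, Set.image_singleton] at h3
      exact adjoin.mono ℂ _ _ (by
        intro z hz
        left
        exact hz) h3
    exact ⟨(adjoin ℂ {τ, y} : IntermediateField ℂ Ω), inferInstance, inferInstance, h1,
      (IsScalarTower.toAlgHom ℂ L Ω).codRestrict
        (adjoin ℂ {τ, y} : IntermediateField ℂ Ω).toSubalgebra hle, h2⟩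
  · exact ⟨L, inferInstance, inferInstance, inferInstance, AlgHom.id ℂ L, a, b, x, y, hab, hy, hgen⟩


section

open Filter
open Metric Topology
open Pool.Agent.Y221.PD
open Pool.Agent.Y221.BD (EntireCurve)
open Pool.Agent.W603.BP (Extends sin_curve sin_point)

variable {M : ℕ} {K : Type} [Field K] [Algebra ℂ K] {x : Fin (M + 1) → K}

theorem vanOn_eq {u f : Fin (M + 1) → ℂ → ℂ} (hu : ∀ i, Differentiable ℂ (u i))
    (hf : ∀ i, Differentiable ℂ (f i)) {k0 : Fin (M + 1)} {t0 : ℂ} (h0 : u k0 t0 ≠ 0)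
    (hfu : ∀ t, (∃ k, u k t ≠ 0) → ∃ c : ℂ, c ≠ 0 ∧ ∀ i, u i t = c * f i t) :
    vanOn Set.univ (fun t i => u i t) = vanOn Set.univ (fun t i => f i t) := by
  have hcl : AnalyticOnNhd ℂ (u k0) Set.univ := (hu k0).differentiableOn.analyticOnNhd isOpen_univ
  have hev : ∀ t, ∀ᶠ s in 𝓝[≠] t, u k0 s ≠ 0 := by
    intro t
    rcases (hcl t (Set.mem_univ _)).eventually_eq_zero_or_eventually_ne_zero with h2 | h2
    · exfalso
      have := hcl.eq_of_eventuallyEq (f := u k0) (g := fun _ => 0) analyticOnNhd_const h2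
      exact h0 (congrFun this t0)
    · exact h2
  have hpt : ∀ {G : MvPolynomial (Fin (M + 1)) ℂ}, IsForm G → ∀ t, u k0 t ≠ 0 →
      (MvPolynomial.eval (fun i => u i t) G = 0 ↔ MvPolynomial.eval (fun i => f i t) G = 0) := by
    intro G hG t ht
    obtain ⟨e, he⟩ := hG
    obtain ⟨c, hc, hcf⟩ := hfu t ⟨k0, ht⟩
    have h2 := eval_scale he c hcf
    rw [h2, mul_eq_zero, or_iff_right (pow_ne_zero _ hc)]
  have hlim : ∀ (g : ℂ → ℂ), Continuous g → (∀ t, u k0 t ≠ 0 → g t = 0) → ∀ t, g t = 0 := by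
    intro g hg h t
    have h3 : Tendsto g (𝓝[≠] t) (𝓝 (g t)) := hg.continuousAt.mono_left nhdsWithin_le_nhds
    have h4 : Tendsto g (𝓝[≠] t) (𝓝 0) := tendsto_const_nhds.congr' (by
      filter_upwards [hev t] with s hs
      exact (h s hs).symm)
    exact tendsto_nhds_unique h3 h4
  ext G
  constructor
  · rintro ⟨hG, h⟩
    exact ⟨hG, fun t _ => hlim (fun t => MvPolynomial.eval (fun i => f i t) G)
      ((MvPolynomial.continuous_eval G).comp (continuous_pi fun i => (hf i).continuous))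
      (fun s hs => (hpt hG s hs).1 (h s trivial)) t⟩
  · rintro ⟨hG, h⟩
    exact ⟨hG, fun t _ => hlim (fun t => MvPolynomial.eval (fun i => u i t) G)
      ((MvPolynomial.continuous_eval G).comp (continuous_pi fun i => (hu i).continuous))
      (fun s hs => (hpt hG s hs).2 (h s trivial)) t⟩

theorem nonconst_of_low {L : Type} [Field L] [Algebra ℂ L] [IsFF ℂ L] {v : Fin (M + 1) → L}
    (hv : OnVar ℂ x v) (hgen : coords ℂ v = ⊤) : Nonconst v :=
  Pool.Agent.Q96.LS.nonconst_of ⟨hv.1, hgen⟩ (by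
    rw [IsFF.trdeg (k := ℂ) (K := L)]
    simp)

theorem curve_of_u {L : Type} [Field L] [Algebra ℂ L] {v : Fin (M + 1) → L} (hv : OnVar ℂ x v)
    (hn : Nonconst v) {u : Fin (M + 1) → ℂ → ℂ} (hu : ∀ i, Differentiable ℂ (u i))
    (hG : ∀ G : MvPolynomial (Fin (M + 1)) ℂ, IsForm G →
      ((∀ t, MvPolynomial.eval (fun i => u i t) G = 0) ↔ val v G = 0)) :
    ∃ f, EntireCurve x f ∧ vanOn Set.univ (fun t i => f i t) = van v := by
  classical
  obtain ⟨i, j, hj, hij⟩ := hn
  have hX : ∀ i, IsForm (MvPolynomial.X i : MvPolynomial (Fin (M + 1)) ℂ) := fun i =>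
    ⟨1, MvPolynomial.isHomogeneous_X ℂ i⟩
  obtain ⟨a, ha⟩ : ∃ a, u j a ≠ 0 := by
    by_contra hcon
    push Not at hcon
    apply hj
    have h1 := (hG (MvPolynomial.X j) (hX j)).1 (fun t => by
      rw [MvPolynomial.eval_X]
      exact hcon t)
    unfold Pool.Agent.W602.GT.val at h1
    rwa [MvPolynomial.aeval_X] at h1
  obtain ⟨b, hb⟩ : ∃ b, u i a * u j b ≠ u j a * u i b := by
    by_contra hcon
    push Not at hcon
    have hF : IsForm (MvPolynomial.C (u i a) * MvPolynomial.X j -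
        MvPolynomial.C (u j a) * MvPolynomial.X i : MvPolynomial (Fin (M + 1)) ℂ) := by
      refine ⟨1, ?_⟩
      have h1 := (MvPolynomial.isHomogeneous_C (Fin (M + 1)) (u i a)).mul
        (MvPolynomial.isHomogeneous_X ℂ j)
      have h2 := (MvPolynomial.isHomogeneous_C (Fin (M + 1)) (u j a)).mul
        (MvPolynomial.isHomogeneous_X ℂ i)
      rw [zero_add] at h1 h2
      exact h1.sub h2
    have h1 := (hG _ hF).1 (fun t => by
      simp only [map_sub, map_mul, MvPolynomial.eval_C, MvPolynomial.eval_X]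
      rw [hcon t, sub_self])
    unfold Pool.Agent.W602.GT.val at h1
    simp only [map_sub, map_mul, MvPolynomial.aeval_X, MvPolynomial.algHom_C] at h1
    apply hij
    have h2 : v i / v j = algebraMap ℂ L (u i a / u j a) := by
      have h3 : algebraMap ℂ L (u j a) ≠ 0 := (map_ne_zero _).2 ha
      rw [map_div₀, div_eq_div_iff hj h3]
      linear_combination -h1
    rw [h2]
    exact isAlgebraic_algebraMap _
  obtain ⟨f, hf, hfu⟩ := curve_of_entire (x := x) hu
    (fun G hGf hxG t => (hG G hGf).2 (hv.2 G hGf hxG) t) hb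
  refine ⟨f, hf, ?_⟩
  rw [← vanOn_eq hu hf.hol ha hfu]
  ext G
  constructor
  · rintro ⟨h1, h2⟩
    exact ⟨h1, (hG G h1).1 fun t => h2 t trivial⟩
  · rintro ⟨h1, h2⟩
    exact ⟨h1, fun t _ => (hG G h1).2 h2 t⟩

/-- the curves of genus `≤ 1` are closures of entire curves -/
theorem curve_of_low (hlow : S_low) {V : Set (MvPolynomial (Fin (M + 1)) ℂ)}
    (hV : V ∈ lowCurves x) :
    ∃ f, EntireCurve x f ∧ vanOn Set.univ (fun t i => f i t) = V := by
  obtain ⟨L, _, _, _, v, hv, hgen, hc, rfl⟩ := hV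
  have hv0 : v ≠ 0 := by
    obtain ⟨j, hj⟩ := hv.1
    intro h
    exact hj (congrFun h j)
  obtain ⟨u, hu, hG⟩ := hlow L hc M v hv0 hgen
  exact curve_of_u hv (nonconst_of_low hv hgen) hu hG

/-- maps from elliptic curves give entire curves -/
theorem curve_of_ell (hw : S_wei) {E : Type} [Field E] [Algebra ℂ E] [IsFF ℂ E]
    (hE : IsElliptic E) {v : Fin (M + 1) → E} (hv : OnVar ℂ x v) (hn : Nonconst v) :
    ∃ f, EntireCurve x f ∧ vanOn Set.univ (fun t i => f i t) = van v := by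
  obtain ⟨a, b, y, z, hab, hyz, hgen⟩ := hE
  obtain ⟨X, Y, Z, hX, hY, hZ, hE, hc⟩ := hw a b hab
  obtain ⟨f, hf, hG⟩ := Pool.Agent.Q24.SF.W3h.ell_case IsFF.trdeg hyz hgen hX hY hZ hE hc v
  exact curve_of_u hv hn hf (fun G hG' => by
    obtain ⟨d, hd⟩ := hG'
    exact hG d G hd)

/-- the curves of genus `≤ 1` are images of elliptic curves -/
theorem ell_of_low {V : Set (MvPolynomial (Fin (M + 1)) ℂ)} (hV : V ∈ lowCurves x) :
    ∃ (E : Type) (_ : Field E) (_ : Algebra ℂ E) (_ : IsFF ℂ E) (v : Fin (M + 1) → E),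
      IsElliptic E ∧ OnVar ℂ x v ∧ Nonconst v ∧ van v = V := by
  obtain ⟨L, _, _, _, v, hv, hgen, hc, rfl⟩ := hV
  obtain ⟨E, _, _, _, σ, hE⟩ := exists_ell hc
  have hval : ∀ G : MvPolynomial (Fin (M + 1)) ℂ, val (fun i => σ (v i)) G = σ (val v G) := by
    intro G
    unfold Pool.Agent.W602.GT.val
    rw [MvPolynomial.comp_aeval_apply]
  have hiff : ∀ G : MvPolynomial (Fin (M + 1)) ℂ, val (fun i => σ (v i)) G = 0 ↔ val v G = 0 := by
    intro G
    rw [hval, map_eq_zero]
  refine ⟨E, inferInstance, inferInstance, inferInstance, fun i => σ (v i), hE, ⟨?_, ?_⟩, ?_, ?_⟩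
  · obtain ⟨j, hj⟩ := hv.1
    exact ⟨j, (map_ne_zero σ).2 hj⟩
  · intro G hG hGx
    exact (hiff G).2 (hv.2 G hG hGx)
  · obtain ⟨i, j, hj, hij⟩ := nonconst_of_low hv hgen
    refine ⟨i, j, (map_ne_zero σ).2 hj, ?_⟩
    rw [← map_div₀]
    intro h
    exact hij ((isAlgebraic_algHom_iff σ σ.injective).1 h)
  · ext G
    exact and_congr_right fun _ => hiff G

/-- entire curves give punctured discs with an essential singularity -/
theorem disc_of_entire {f : Fin (M + 1) → ℂ → ℂ} (hf : EntireCurve x f) :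
    EssentialDisc x (fun w i => f i (Complex.sin w⁻¹)) := by
  obtain ⟨f', hf'⟩ : ∃ f' : ℂ → Fin (M + 1) → ℂ, ∀ t i, f' t i = f i t := ⟨fun t i => f i t,
    fun _ _ => rfl⟩
  have hfe : ∀ t, f' t = fun i => f i t := fun t => funext (hf' t)
  have hne : ∀ t, f' t ≠ 0 := by
    intro t h0
    obtain ⟨i, hi⟩ := hf.ne t
    apply hi
    rw [← hf', h0]
    rfl
  have hE : Pool.Agent.H159R3.GGLLog.EntireCurve (ι := Empty) ∅ (fun e => e.elim) f' := by
    refine ⟨?_, fun z => ⟨hne z, fun j hj => absurd hj (Set.notMem_empty j), fun e => e.elim⟩, ?_⟩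
    · rw [differentiable_pi]
      intro i
      have : (fun t => f' t i) = f i := funext fun t => hf' t i
      rw [this]
      exact hf.hol i
    · obtain ⟨i, j, a, b, hab⟩ := hf.nonconst
      refine ⟨a, b, fun c hc => hab ?_⟩
      have h1 : ∀ l, f l a = c * f l b := by
        intro l
        have := congrFun hc l
        rw [hf', Pi.smul_apply, hf', smul_eq_mul] at this
        exact this
      rw [h1 i, h1 j]
      ring
  obtain ⟨⟨h1, h2⟩, h3⟩ := sin_curve hE
  have hD : EssentialDisc x (fun w => f' (Complex.sin w⁻¹)) := by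
    refine ⟨fun i => ?_, fun t _ => hne _, fun G hG hxG t _ => ?_, h3⟩
    · exact fun t ht => (differentiableWithinAt_pi.mp (h1 t ht)) i
    · show MvPolynomial.eval (f' (Complex.sin t⁻¹)) G = 0
      rw [hfe]
      exact hf.mem G hG hxG _
  have h4 : (fun w => f' (Complex.sin w⁻¹)) = fun w i => f i (Complex.sin w⁻¹) := by
    funext w i
    exact hf' _ _
  rwa [h4] at hD

/-- **Entire curves in surfaces.** -/
theorem entire_low (hG1 : S_gpc) (htr : Algebra.trdeg ℂ K = (2 : ℕ)) (hx : x ≠ 0)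
    (hgen : coords ℂ x = ⊤) {R : MvPolynomial (Fin (M + 1)) ℂ} (hR : IsForm R)
    (hxR : val x R ≠ 0) {f : Fin (M + 1) → ℂ → ℂ} (hf : EntireCurve x f)
    (hfR : ∀ t, MvPolynomial.eval (fun i => f i t) R = 0) :
    vanOn Set.univ (fun t i => f i t) ∈ lowCurves x := by
  have h1 := disc_low hG1 htr hx hgen hR hxR (disc_of_entire hf) fun t _ => hfR _
  have h2 : vanOn (ball (0 : ℂ) 1 \ {0}) (fun w i => f i (Complex.sin w⁻¹)) =
      vanOn Set.univ (fun t i => f i t) := by
    ext G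
    constructor
    · rintro ⟨hG, h⟩
      refine ⟨hG, fun t _ => ?_⟩
      obtain ⟨w, hw, hws⟩ := sin_point t
      have h3 := h w hw
      simp only [hws] at h3
      exact h3
    · rintro ⟨hG, h⟩
      exact ⟨hG, fun t _ => h _ (Set.mem_univ _)⟩
  rwa [h2] at h1


/-- meromorphic images of affine spaces contain entire curves -/
theorem curve_of_mero {g : ℕ} {u : Fin (M + 1) → (Fin g → ℂ) → ℂ} (hu : MeroMap x g u) :
    ∃ f, EntireCurve x f := by
  obtain ⟨i, j, a, b, hab⟩ := hu.nonconst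
  let ℓ : ℂ → Fin g → ℂ := fun s => a + s • (b - a)
  have hℓ : Differentiable ℂ ℓ := by
    simp only [ℓ]
    fun_prop
  have h0 : ℓ 0 = a := by simp [ℓ]
  have h1 : ℓ 1 = b := by simp [ℓ]
  obtain ⟨f, hf, -⟩ := curve_of_entire (x := x) (u := fun i s => u i (ℓ s))
    (fun i => (hu.hol i).comp hℓ) (fun G hG hxG s => hu.mem G hG hxG (ℓ s)) (i := i) (j := j)
    (a := 0) (b := 1) (by
      simp only [h0, h1]
      exact hab)
  exact ⟨f, hf⟩

/-- the notions of hyperbolicity for a variety whose entire curves are contained in curves -/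
theorem tfae (h : ∀ f, EntireCurve x f → vanOn Set.univ (fun t i => f i t) ∈ lowCurves x) :
    List.TFAE [KobayashiHyp x, BrodyHyp x, NoMero x, NoElliptic x, lowCurves x = ∅] := by
  have hw : S_wei := Pool.Agent.Q95.SF.wei
  have hk : S_kob := Pool.Agent.Q239.SF.kob
  have hlow : S_low := Pool.Agent.Q24.SF.low_curve hw Pool.Agent.Q111.SF.cls
  tfae_have 1 ↔ 2 := (hk M K x).symm
  tfae_have 5 → 2 := by
    intro h0 f hf
    have := h f hf
    rw [h0] at this
    exact this
  tfae_have 2 → 5 := by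
    intro h0
    rw [Set.eq_empty_iff_forall_notMem]
    intro V hV
    obtain ⟨f, hf, -⟩ := curve_of_low hlow hV
    exact h0 f hf
  tfae_have 2 → 3 := by
    intro h0 g u hu
    obtain ⟨f, hf⟩ := curve_of_mero hu
    exact h0 f hf
  tfae_have 3 → 2 := by
    intro h0 f hf
    obtain ⟨i, j, a, b, hab⟩ := hf.nonconst
    refine h0 1 (fun i t => f i (t 0)) ⟨fun i => ?_, fun G hG hGx t => hf.mem G hG hGx _, i, j,
      fun _ => a, fun _ => b, hab⟩
    exact (hf.hol i).comp (by fun_prop)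
  tfae_have 2 → 4 := by
    intro h0 E _ _ _ hE v hv hn
    obtain ⟨f, hf, -⟩ := curve_of_ell hw hE hv hn
    exact h0 f hf
  tfae_have 4 → 5 := by
    intro h0
    rw [Set.eq_empty_iff_forall_notMem]
    intro V hV
    obtain ⟨E, _, _, _, v, hE, hv, hn, -⟩ := ell_of_low hV
    exact h0 E hE v hv hn
  tfae_finish

end

end Run7.h493.SR
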