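import Pool.Agent.Run7.h493.SR.Curve
import Pool.Agent.Run7.h493.TS.Gtk
import Pool.Agent.Run7.h789.RC.Qf
import Pool.Agent.Run7.h789.RC.Hgt

/-!
Varieties whose function fields contain the roots of the quotients of general forms: specialisation of
the roots to the points of the variety.
-/

set_option autoImplicit false

namespace Run7.h493.SR

open MvPolynomial FF
open Pool.Agent.W602.GT (GeneralType coords IsForm)
open Pool.Agent.NH29.GN (Idx Mon fv)
open Pool.Agent.Run7.h789.RC (Sys OnV exists_rel' rel_hgt)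
open Pool.Agent.Run7.h789.FV (mord mht_le hgt_le_mht)
open Pool.Agent.W603.LV Pool.Agent.W603.PV

variable {M N q : ℕ}

theorem degree_le {c : MvPolynomial (Fin (M + 1)) ℂ} {α : Fin (M + 1) →₀ ℕ}
    (hα : α ∈ c.support) : α.degree ≤ c.totalDegree := by
  have h := le_totalDegree hα
  rwa [show α.degree = α.sum fun _ e => e from rfl]

/-- homogenisation -/
theorem exists_homog (c : MvPolynomial (Fin (M + 1)) ℂ) (E : ℕ) (hE : c.totalDegree ≤ E)
    (j₀ : Fin (M + 1)) : ∃ c' : MvPolynomial (Fin (M + 1)) ℂ, c'.IsHomogeneous E ∧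
      ∀ (L : Type) [Field L] [Algebra ℂ L] (y : Fin (M + 1) → L), y j₀ ≠ 0 →
        aeval y c' = y j₀ ^ E * aeval (fun j => y j / y j₀) c := by
  classical
  refine ⟨∑ α ∈ c.support, monomial α (coeff α c) * X j₀ ^ (E - α.degree), ?_, ?_⟩
  · refine IsHomogeneous.sum _ _ _ fun α hα => ?_
    have h1 : α.degree ≤ E := (degree_le hα).trans hE
    have h2 := (isHomogeneous_monomial (R := ℂ) (coeff α c) (rfl : α.degree = α.degree)).mul
      (isHomogeneous_X_pow (R := ℂ) j₀ (E - α.degree))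
    rwa [Nat.add_sub_cancel' h1] at h2
  · intro L _ _ y hy
    rw [map_sum, aeval_def (fun j => y j / y j₀), eval₂_eq', Finset.mul_sum]
    refine Finset.sum_congr rfl fun α hα => ?_
    have h1 : α.degree ≤ E := (degree_le hα).trans hE
    rw [map_mul, map_pow, aeval_X, aeval_monomial, Finsupp.prod_fintype _ _ (fun i => pow_zero _)]
    have h2 : ∏ i, (y i / y j₀) ^ α i = (∏ i, y i ^ α i) / y j₀ ^ α.degree := by
      rw [show α.degree = ∑ i, α i from Finsupp.degree_eq_sum α, ← Finset.prod_pow_eq_pow_sum,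
        ← Finset.prod_div_distrib]
      exact Finset.prod_congr rfl fun i _ => div_pow _ _ _
    have h3 : y j₀ ^ E = y j₀ ^ α.degree * y j₀ ^ (E - α.degree) := by
      rw [← pow_add, Nat.add_sub_cancel' h1]
    rw [h2, h3]
    field_simp

/-- The point `u` of `V` under the point `y` of `X`: it has the roots, and `y` is algebraic over it, by
the relations with the coefficients `c`. -/
structure Under (V : Set (MvPolynomial (Fin (M + 1)) ℂ)) (d : Fin q → ℕ)
    (F : Fin q → MvPolynomial (Fin (M + 1)) ℂ) (m : ℕ) (j₀ : Fin (M + 1)) (k₀ : Fin (N + 1))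
    (D : Fin (N + 1) → ℕ) (c : Fin (N + 1) → ℕ → MvPolynomial (Fin (M + 1)) ℂ) {L : Type} [Field L]
    [Algebra ℂ L] (y : Fin (N + 1) → L) (u : Fin (M + 1) → L) : Prop where
  hk : y k₀ ≠ 0
  hj : u j₀ ≠ 0
  mem : ∀ H ∈ V, aeval u H = 0
  ne : ∀ b, aeval u (F b) ≠ 0
  root : ∀ b b', ∃ ρ : L, ρ ^ m * aeval u (F b') ^ d b = aeval u (F b) ^ d b'
  rel : ∀ i, ∑ l ∈ Finset.range (D i + 1), aeval (fun j => u j / u j₀) (c i l) *
    (y i / y k₀) ^ l = 0
  lead : ∀ i, aeval (fun j => u j / u j₀) (c i (D i)) ≠ 0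

/-- **Specialisation.** -/
theorem exists_under {V : Set (MvPolynomial (Fin (M + 1)) ℂ)}
    (hVh : ∀ H ∈ V, ∃ e, H.IsHomogeneous e) {d : Fin q → ℕ}
    {F : Fin q → MvPolynomial (Fin (M + 1)) ℂ} (hF : ∀ b, (F b).IsHomogeneous (d b)) {m : ℕ}
    {K : Type} [Field K] [Algebra ℂ K] {v : Fin (M + 1) → K} (hvV : ∀ H ∈ V, aeval v H = 0)
    {j₀ : Fin (M + 1)} (hj₀ : v j₀ ≠ 0) (hne : ∀ b, aeval v (F b) ≠ 0)
    (hroot : ∀ b c, ∃ ρ : K, ρ ^ m * aeval v (F c) ^ d b = aeval v (F b) ^ d c)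
    (halg : Algebra.IsAlgebraic (coords ℂ v) K) {x : Fin (N + 1) → K} (hx : x ≠ 0)
    (hgen : coords ℂ x = ⊤) :
    ∃ (R : MvPolynomial (Fin (N + 1)) ℂ) (A : Fin (M + 1) → MvPolynomial (Fin (N + 1)) ℂ)
      (k₀ : Fin (N + 1)) (D : Fin (N + 1) → ℕ)
      (c : Fin (N + 1) → ℕ → MvPolynomial (Fin (M + 1)) ℂ), IsForm R ∧ aeval x R ≠ 0 ∧
      ∀ (L : Type) [Field L] [Algebra ℂ L] (y : Fin (N + 1) → L),
        (∀ G : MvPolynomial (Fin (N + 1)) ℂ, IsForm G → aeval x G = 0 → aeval y G = 0) →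
        aeval y R ≠ 0 → Under V d F m j₀ k₀ D c y fun j => aeval y (A j) := by
  classical
  obtain ⟨k₀, hk₀⟩ := Function.ne_iff.1 hx
  have hk₀ : x k₀ ≠ 0 := hk₀
  obtain ⟨A, e, s, hA, hs, hAv⟩ := frac_family hgen v
  choose ρ hρ using hroot
  choose Rr S Dr hRh hSh hS0 hRS using fun b c => frac hgen (ρ b c)
  choose D c hrel hlead using fun i => exists_rel' (K := ℂ) hj₀ (halg.isAlgebraic (x i / x k₀))
  -- composition with forms
  have hAx : ∀ {k : ℕ} {P : MvPolynomial (Fin (M + 1)) ℂ}, P.IsHomogeneous k →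
      aeval x (bind₁ A P) = s ^ k * aeval v P := by
    intro k P hP
    rw [aeval_comp, ← hom_scale hP]
    congr 2
    funext i
    exact hAv i
  let E : Fin (N + 1) → ℕ := fun i => ∑ l ∈ Finset.range (D i + 1), (c i l).totalDegree
  have hE : ∀ i (l : Fin (D i + 1)), (c i l).totalDegree ≤ E i := fun i l =>
    Finset.single_le_sum (f := fun l => (c i l).totalDegree) (fun _ _ => Nat.zero_le _)
      (Finset.mem_range.2 l.2)
  choose c' hc'h hc' using fun i (l : Fin (D i + 1)) => exists_homog (c i l) (E i) (hE i l) j₀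
  -- the relations in homogeneous form
  obtain ⟨G, hG⟩ : ∃ G : Fin (N + 1) → MvPolynomial (Fin (N + 1)) ℂ, G = fun i =>
    ∑ l : Fin (D i + 1), bind₁ A (c' i l) * (X i ^ (l : ℕ) * X k₀ ^ (D i - l)) := ⟨_, rfl⟩
  have hGh : ∀ i, (G i).IsHomogeneous (e * E i + D i) := by
    intro i
    rw [hG]
    refine IsHomogeneous.sum _ _ _ fun l _ => ?_
    have h1 := ((isHomogeneous_X_pow (R := ℂ) i (l : ℕ)).mul
      (isHomogeneous_X_pow (R := ℂ) k₀ (D i - l)))
    rw [Nat.add_sub_cancel' (Nat.lt_succ_iff.1 l.2)] at h1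
    exact (comp_hom hA (hc'h i l)).mul h1
  have hGy : ∀ (L : Type) [Field L] [Algebra ℂ L] (y : Fin (N + 1) → L), y k₀ ≠ 0 →
      aeval y (A j₀) ≠ 0 → ∀ i, aeval y (G i) = aeval y (A j₀) ^ E i * y k₀ ^ D i *
        ∑ l ∈ Finset.range (D i + 1), aeval (fun j => aeval y (A j) / aeval y (A j₀)) (c i l) *
          (y i / y k₀) ^ l := by
    intro L _ _ y hy hu i
    rw [hG, map_sum, Finset.sum_range, Finset.mul_sum]
    refine Finset.sum_congr rfl fun l _ => ?_
    rw [map_mul, map_mul, map_pow, map_pow, aeval_X, aeval_X, aeval_comp,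
      hc' i l L (fun j => aeval y (A j)) hu, div_pow]
    have h3 : y k₀ ^ D i = y k₀ ^ (l : ℕ) * y k₀ ^ (D i - l) := by
      rw [← pow_add, Nat.add_sub_cancel' (Nat.lt_succ_iff.1 l.2)]
    rw [h3]
    field_simp
  have hu0 : aeval x (A j₀) ≠ 0 := by
    rw [hAv]
    exact mul_ne_zero hs hj₀
  have hratio : (fun j => aeval x (A j) / aeval x (A j₀)) = fun j => v j / v j₀ := by
    funext j
    rw [hAv, hAv, mul_div_mul_left _ _ hs]
  have hGx : ∀ i, aeval x (G i) = 0 := by
    intro i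
    rw [hGy K x hk₀ hu0 i, hratio, hrel i, mul_zero]
  -- the form
  let R : MvPolynomial (Fin (N + 1)) ℂ := X k₀ * A j₀ * (∏ b, bind₁ A (F b)) *
    (∏ p : Fin q × Fin q, S p.1 p.2) *
    ∏ i : Fin (N + 1), bind₁ A (c' i (Fin.last (D i)))
  have hRf : IsForm R :=
    ⟨_, (((((isHomogeneous_X ℂ k₀).mul (hA j₀)).mul
      (IsHomogeneous.prod _ _ _ fun b _ => comp_hom hA (hF b))).mul
      (IsHomogeneous.prod _ _ _ fun (p : Fin q × Fin q) _ => hSh p.1 p.2)).mul
      (IsHomogeneous.prod _ _ _ fun i _ => comp_hom hA (hc'h i (Fin.last (D i)))))⟩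
  have key : ∀ {L : Type} [Field L] [Algebra ℂ L] (y : Fin (N + 1) → L), aeval y R ≠ 0 ↔
      y k₀ ≠ 0 ∧ aeval y (A j₀) ≠ 0 ∧ (∀ b, aeval y (bind₁ A (F b)) ≠ 0) ∧
      (∀ b b', aeval y (S b b') ≠ 0) ∧ ∀ i, aeval y (bind₁ A (c' i (Fin.last (D i)))) ≠ 0 := by
    intro L _ _ y
    simp only [R, map_mul, map_prod, aeval_X, Ne, mul_eq_zero, not_or, Finset.prod_eq_zero_iff,
      Finset.mem_univ, true_and, not_exists, Prod.forall, and_assoc]
  refine ⟨R, A, k₀, D, c, hRf, ?_, fun L _ _ y hspec hyR => ?_⟩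
  · rw [key]
    refine ⟨hk₀, hu0, fun b => ?_, hS0, fun i => ?_⟩
    · rw [hAx (hF b)]
      exact mul_ne_zero (pow_ne_zero _ hs) (hne b)
    · rw [aeval_comp, hc' i _ K (fun j => aeval x (A j)) hu0, hratio]
      exact mul_ne_zero (pow_ne_zero _ hu0) (hlead i)
  · obtain ⟨h1, h2, h3, h4, h5⟩ := (key y).1 hyR
    refine ⟨h1, h2, fun H hH => ?_, fun b => ?_, fun b b' => ?_, fun i => ?_, fun i => ?_⟩
    · obtain ⟨k, hk⟩ := hVh H hH
      rw [← aeval_comp]
      refine hspec _ ⟨_, comp_hom hA hk⟩ ?_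
      rw [hAx hk, hvV H hH, mul_zero]
    · rw [← aeval_comp]
      exact h3 b
    · refine ⟨aeval y (Rr b b') / aeval y (S b b'), ?_⟩
      obtain ⟨P, hP⟩ : ∃ P : MvPolynomial (Fin (N + 1)) ℂ, P = Rr b b' ^ m * bind₁ A (F b') ^ d b -
        S b b' ^ m * bind₁ A (F b) ^ d b' := ⟨_, rfl⟩
      have g1 : (Rr b b' ^ m * bind₁ A (F b') ^ d b).IsHomogeneous
          (Dr b b' * m + e * d b' * d b) :=
        ((hRh b b').pow m).mul ((comp_hom hA (hF b')).pow (d b))
      have g2 : (S b b' ^ m * bind₁ A (F b) ^ d b').IsHomogeneous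
          (Dr b b' * m + e * d b' * d b) := by
        have := ((hSh b b').pow m).mul ((comp_hom hA (hF b)).pow (d b'))
        rwa [show e * d b * d b' = e * d b' * d b by ring] at this
      have g3 : IsForm P := ⟨_, by
        rw [hP]
        exact g1.sub g2⟩
      have g4 := hspec P g3 (by
        rw [hP, map_sub, map_mul, map_mul, map_pow, map_pow, map_pow, map_pow, hAx (hF b'),
          hAx (hF b), ← hRS b b']
        have h5 := hρ b b'
        have h6 : (s ^ d b') ^ d b = (s ^ d b) ^ d b' := by rw [← pow_mul, ← pow_mul, mul_comm]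
        rw [mul_pow, mul_pow, mul_pow, h6]
        linear_combination aeval x (S b b') ^ m * (s ^ d b) ^ d b' * h5)
      rw [hP, map_sub, map_mul, map_mul, map_pow, map_pow, map_pow, map_pow, aeval_comp,
        aeval_comp] at g4
      have g5 := pow_ne_zero m (h4 b b')
      rw [div_pow, div_mul_eq_mul_div, div_eq_iff g5]
      linear_combination g4
    · have g1 := hspec (G i) ⟨_, hGh i⟩ (hGx i)
      rw [hGy L y h1 h2 i] at g1
      exact (mul_eq_zero.1 g1).resolve_left (mul_ne_zero (pow_ne_zero _ h2) (pow_ne_zero _ h1))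
    · have g1 := h5 i
      rw [aeval_comp, hc' i _ L (fun j => aeval y (A j)) h2] at g1
      exact right_ne_zero_of_mul g1

section use

variable {V : Set (MvPolynomial (Fin (M + 1)) ℂ)} {r : ℕ} {d : Fin (r + 1) → ℕ}
  {F : Fin (r + 1) → MvPolynomial (Fin (M + 1)) ℂ} {m : ℕ} {j₀ : Fin (M + 1)} {k₀ : Fin (N + 1)}
  {D : Fin (N + 1) → ℕ} {c : Fin (N + 1) → ℕ → MvPolynomial (Fin (M + 1)) ℂ}

/-- the point `y` is algebraic over the point `u` -/
theorem Under.alg {L : Type} [Field L] [Algebra ℂ L] {y : Fin (N + 1) → L} {u : Fin (M + 1) → L}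
    (h : Under V d F m j₀ k₀ D c y u) (hgen : coords ℂ y = ⊤) :
    Algebra.IsAlgebraic (coords ℂ u) L := by
  classical
  have h1 : ∀ i, IsAlgebraic (coords ℂ u) (y i / y k₀) := by
    intro i
    have hmem : ∀ P : MvPolynomial (Fin (M + 1)) ℂ, aeval (fun j => u j / u j₀) P ∈ coords ℂ u := by
      intro P
      induction P using MvPolynomial.induction_on with
      | C a =>
        rw [aeval_C]
        exact IntermediateField.algebraMap_mem _ a
      | add P Q hP hQ =>
        rw [map_add]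
        exact add_mem hP hQ
      | mul_X P i hP =>
        rw [map_mul, aeval_X]
        exact mul_mem hP (IntermediateField.subset_adjoin _ _ ⟨i, j₀, h.hj, rfl⟩)
    let p : Polynomial (coords ℂ u) := ∑ l ∈ Finset.range (D i + 1),
      Polynomial.C (⟨_, hmem (c i l)⟩ : coords ℂ u) * Polynomial.X ^ l
    refine ⟨p, ?_, ?_⟩
    · intro h0
      have h3 : p.coeff (D i) = ⟨_, hmem (c i (D i))⟩ := by
        simp only [p, Polynomial.finsetSum_coeff, Polynomial.coeff_C_mul, Polynomial.coeff_X_pow]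
        rw [Finset.sum_eq_single (D i)]
        · simp
        · intro l _ hl
          rw [if_neg (Ne.symm hl), mul_zero]
        · intro hn
          exact absurd (Finset.self_mem_range_succ _) hn
      rw [h0, Polynomial.coeff_zero] at h3
      exact h.lead i (congrArg Subtype.val h3).symm
    · simp only [p, map_sum, map_mul, map_pow, Polynomial.aeval_C, Polynomial.aeval_X]
      exact h.rel i
  have h2 : ∀ i j, IsAlgebraic (coords ℂ u) (y i / y j) := by
    intro i j
    by_cases hj : y j = 0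
    · rw [hj, div_zero]
      exact isAlgebraic_zero
    · have e : y i / y j = (y i / y k₀) / (y j / y k₀) := by
        have := h.hk
        field_simp
      rw [e, div_eq_mul_inv]
      exact (h1 i).mul (h1 j).inv
  have h3 : coords ℂ y ≤ (algebraicClosure (coords ℂ u) L).restrictScalars ℂ := by
    unfold coords
    rw [IntermediateField.adjoin_le_iff]
    rintro _ ⟨i, j, _, rfl⟩
    exact (mem_algebraicClosure_iff.2 (h2 i j))
  refine ⟨fun z => ?_⟩
  have h4 : z ∈ coords ℂ y := by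
    rw [hgen]
    exact IntermediateField.mem_top
  exact mem_algebraicClosure_iff.1 (h3 h4)

/-- the height of `y` is bounded by the height of `u` -/
theorem Under.pht {L : Type} [Field L] [Algebra ℂ L] [IsFF ℂ L] {y : Fin (N + 1) → L}
    {u : Fin (M + 1) → L} (h : Under V d F m j₀ k₀ D c y u) :
    pht ℂ y ≤ (∑ i, (∑ l ∈ Finset.range (D i + 1), (c i l).totalDegree * (M + 1)) : ℕ) *
      pht ℂ u := by
  classical
  have h1 : Pool.Agent.W603.PV.pht ℂ y ≤ ∑ i, hgt ℂ (y i / y k₀) := mht_le (k := ℂ) y h.hk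
  refine h1.trans ?_
  push_cast
  rw [Finset.sum_mul]
  refine Finset.sum_le_sum fun i _ => ?_
  have h2 := rel_hgt (K := ℂ) h.hj (h.rel i) (h.lead i)
  push_cast at h2
  exact h2

/-- the orders of contact -/
theorem Under.contact {B : ℕ} {t : Idx M d → ℂ} {ι : Type} {F' : ι → MvPolynomial (Fin (r + 1)) ℂ}
    (S : Sys V t B F') (htF : ∀ (L : Type) [Field L] [Algebra ℂ L] (u : Fin (M + 1) → L) b,
      fv (K := ℂ) (L := L) t u b = aeval u (F b)) {L : Type} [Field L] [Algebra ℂ L]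
    {y : Fin (N + 1) → L} {u : Fin (M + 1) → L} (h : Under V d F m j₀ k₀ D c y u) {μ : ℕ}
    (hm : μ * ∑ b, d b ≤ m) (P : Place ℂ L) (b : Fin (r + 1)) (hb : fv (K := ℂ) t u b ≠ 0) :
    P.ord (fv (K := ℂ) t u b) ≤ d b * mord P u ∨
      d b * mord P u + μ ≤ P.ord (fv (K := ℂ) t u b) := by
  have hu : u ≠ 0 := fun h0 => h.hj (congrFun h0 j₀)
  obtain ⟨hge, b', hc, hco⟩ := S.gd.ord S.hom hu (fun H hH => h.mem H hH) P
  by_cases hbo : P.ord (fv (K := ℂ) t u b) = d b * mord P u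
  · exact Or.inl hbo.le
  right
  obtain ⟨ρ, hρ⟩ := h.root b b'
  rw [← htF L, ← htF L] at hρ
  have hne0 : fv (K := ℂ) t u b ^ d b' ≠ 0 := pow_ne_zero _ hb
  have hρ0 : ρ ^ m ≠ 0 := by
    intro h
    apply hne0
    rw [← hρ, h, zero_mul]
  have h1 := congrArg P.ord hρ
  rw [P.ord_mul hρ0 (pow_ne_zero _ hc), P.ord_pow, P.ord_pow, P.ord_pow, hco] at h1
  have h2 := hge b hb
  obtain ⟨e, he⟩ : ∃ e : ℤ, e = P.ord (fv (K := ℂ) t u b) - d b * mord P u := ⟨_, rfl⟩
  have he0 : 0 < e := by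
    rcases lt_or_eq_of_le h2 with h | h
    · omega
    · exact absurd h.symm hbo
  have h3 : (m : ℤ) * P.ord ρ = d b' * e := by
    rw [he]
    linear_combination h1
  have hdc : 1 ≤ d b' := S.pos b'
  have hdc' : (0 : ℤ) < d b' := by exact_mod_cast hdc
  have h4 : 0 < (m : ℤ) * P.ord ρ := by
    rw [h3]
    exact mul_pos hdc' he0
  have h5 : 0 < P.ord ρ := by
    by_contra hcon
    push Not at hcon
    have : (m : ℤ) * P.ord ρ ≤ 0 := mul_nonpos_of_nonneg_of_nonpos (by positivity) hcon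
    omega
  have h6 : (m : ℤ) ≤ d b' * e := by
    rw [← h3]
    nlinarith [show (0 : ℤ) ≤ m by positivity]
  have h7 : μ * d b' ≤ m := by
    refine le_trans (Nat.mul_le_mul_left _ ?_) hm
    exact Finset.single_le_sum (f := d) (fun _ _ => Nat.zero_le _) (Finset.mem_univ b')
  have h8 : ((μ : ℕ) : ℤ) * d b' ≤ e * d b' := by
    have : ((μ : ℕ) : ℤ) * d b' ≤ m := by exact_mod_cast h7
    rw [mul_comm e]
    exact this.trans h6
  have h9 := le_of_mul_le_mul_right h8 hdc'
  rw [he] at h9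
  linarith

end use

end Run7.h493.SR
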