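import Pool.Agent.Run7.h493.SR.Alg2
import Pool.Agent.Run7.h493.SR.Spec
import Pool.Agent.Y221.AH.Hp
import Pool.Agent.W619.TW.Hyp
import Pool.Agent.W619.PQ.Curve
import Pool.Agent.W602.GT.Orb

/-!
The degrees of the curves in a surface.

`canDeg_ge_neg_two`, `pht_eq` and the proof of `degree_bound` are those of
`Pool/Agent/Run7/h830/CS/Deg.lean` (helper830), repeated here with fewer imports.
-/

set_option autoImplicit false

namespace Run7.h493.SR

open FF
open Pool.Agent.W602.GT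
open Pool.Agent.Q103.SF (van lowCurves)
open Pool.Agent.Y216 (OnVar)
open Pool.Agent.W603.LV (canDeg)
open Pool.Agent.W603.PV (pht pht_scale)
open Pool.Agent.Q271.RC (Nonconst)

/-- the canonical degree of a curve is at least `-2` -/
theorem canDeg_ge_neg_two {L : Type} [Field L] [Algebra ℂ L] [IsFF ℂ L] : -2 ≤ canDeg ℂ L := by
  by_cases h : ∃ t : L, IntermediateField.adjoin ℂ {t} = ⊤
  · obtain ⟨t, ht⟩ := h
    exact (Pool.Agent.W619.PQ.canDeg_rational ht).ge
  · exact (by norm_num : (-2 : ℤ) ≤ 0).trans (Pool.Agent.W619.TW.canDeg_nonneg h)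

/-- the degree of a curve only depends on its equations -/
theorem pht_eq {M : ℕ} {L L' : Type} [Field L] [Field L'] [Algebra ℂ L] [Algebra ℂ L'] [IsFF ℂ L]
    [IsFF ℂ L'] {v : Fin (M + 1) → L} {v' : Fin (M + 1) → L'} (hv : ∃ j, v j ≠ 0)
    (hg : coords ℂ v = ⊤) (hg' : coords ℂ v' = ⊤) (h : van v = van v') : pht ℂ v = pht ℂ v' := by
  obtain ⟨i0, h0⟩ := hv
  have hiff : ∀ G : MvPolynomial (Fin (M + 1)) ℂ, IsForm G → (val v G = 0 ↔ val v' G = 0) := by
    intro G hG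
    constructor
    · intro h1
      have h2 : G ∈ van v := ⟨hG, h1⟩
      rw [h] at h2
      exact h2.2
    · intro h1
      have h2 : G ∈ van v' := ⟨hG, h1⟩
      rw [← h] at h2
      exact h2.2
  have hX : ∀ {E : Type} [Field E] [Algebra ℂ E] (u : Fin (M + 1) → E),
      val u (MvPolynomial.X i0 : MvPolynomial (Fin (M + 1)) ℂ) = u i0 := by
    intro E _ _ u
    unfold Pool.Agent.W602.GT.val
    rw [MvPolynomial.aeval_X]
  have h0' : v' i0 ≠ 0 := by
    intro h1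
    apply h0
    have h2 := (hiff (MvPolynomial.X i0) ⟨1, MvPolynomial.isHomogeneous_X _ _⟩).2
      (by rw [hX, h1])
    rwa [hX] at h2
  obtain ⟨φ, hφ⟩ := exists_embedding h0 h0' hg hiff
  let _ : Algebra L L' := φ.toRingHom.toAlgebra
  have : IsScalarTower ℂ L L' := IsScalarTower.of_algebraMap_eq fun c => (φ.commutes c).symm
  have hmap : ∀ u : L, algebraMap L L' u = φ u := fun _ => rfl
  have htop : φ.fieldRange = ⊤ := by
    rw [eq_top_iff, ← hg']
    unfold Pool.Agent.W602.GT.coords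
    rw [IntermediateField.adjoin_le_iff]
    rintro _ ⟨i, j, hj, rfl⟩
    refine ⟨(v i / v i0) / (v j / v i0), ?_⟩
    show φ ((v i / v i0) / (v j / v i0)) = v' i / v' j
    rw [map_div₀, hφ, hφ, div_div_div_cancel_right₀ h0']
  have hsurj : Function.Surjective (algebraMap L L') := by
    intro u
    have hu : u ∈ φ.fieldRange := by
      rw [htop]
      exact IntermediateField.mem_top
    exact hu
  have hfd : FiniteDimensional L L' := Module.Finite.of_surjective (Algebra.linearMap L L') hsurj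
  have hfr : Module.finrank L L' = 1 := by
    have e : L ≃ₗ[L] L' := LinearEquiv.ofBijective (Algebra.linearMap L L')
      ⟨(algebraMap L L').injective, hsurj⟩
    rw [← e.finrank_eq, Module.finrank_self]
  have h1 := Pool.Agent.Y221.AH.pht_algebraMap (k := ℂ) (K := L) (L := L')
    (f := fun j => v j / v i0) ⟨i0, div_ne_zero h0 h0⟩
  have h2 : (fun j => algebraMap L L' (v j / v i0)) = fun j => (v' i0)⁻¹ * v' j := by
    funext j
    rw [hmap, hφ, div_eq_mul_inv, mul_comm]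
  have h3 : (fun j => v j / v i0) = fun j => (v i0)⁻¹ * v j := by
    funext j
    rw [div_eq_mul_inv, mul_comm]
  rw [h2, h3, hfr, pht_scale ⟨i0, h0'⟩ (inv_ne_zero h0'), pht_scale ⟨i0, h0⟩ (inv_ne_zero h0)] at h1
  rw [h1]
  simp

/-- **Degrees of curves** in a surface. -/
theorem degree_bound {M : ℕ} {K : Type} [Field K] [Algebra ℂ K] {x : Fin (M + 1) → K}
    (htr : Algebra.trdeg ℂ K = (2 : ℕ)) (hx : x ≠ 0) (hgen : coords ℂ x = ⊤)
    {R : MvPolynomial (Fin (M + 1)) ℂ} (hR : WeakHyp x R) :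
    ∃ A B : ℕ, ∀ (L : Type) [Field L] [Algebra ℂ L] [IsFF ℂ L]
      (v : Fin (M + 1) → L), OnVar ℂ x v → coords ℂ v = ⊤ → pht ℂ v ≤ A * canDeg ℂ L + B := by
  classical
  obtain ⟨hfin, ⟨A, hA⟩, -⟩ := alg htr hx hgen hR
  have hlow : ∀ V ∈ lowCurves x, ∃ b : ℕ, ∀ (L : Type) [Field L] [Algebra ℂ L] [IsFF ℂ L]
      (v : Fin (M + 1) → L), OnVar ℂ x v → coords ℂ v = ⊤ → van v = V → pht ℂ v ≤ b := by
    rintro V ⟨L0, _, _, _, v0, hv0, hg0, -, rfl⟩
    refine ⟨(pht ℂ v0).toNat, fun L _ _ _ v hv hg hV => ?_⟩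
    rw [pht_eq hv.1 hg hg0 hV]
    exact Int.self_le_toNat _
  choose! b hb using hlow
  refine ⟨A, ∑ V ∈ hfin.toFinset, b V + 2 * A, fun L _ _ _ v hv hg => ?_⟩
  have hc := canDeg_ge_neg_two (L := L)
  have hA0 : (0 : ℤ) ≤ A := Int.natCast_nonneg _
  have hA2 : (A : ℤ) * (-2) ≤ A * canDeg ℂ L := mul_le_mul_of_nonneg_left hc hA0
  have hS0 : (0 : ℤ) ≤ ((∑ V ∈ hfin.toFinset, b V : ℕ) : ℤ) := Int.natCast_nonneg _
  rcases hA L v hv (nonconst_of_low hv hg) with h1 | h1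
  · push_cast at hS0 ⊢
    linarith
  · have h2 := hb _ h1 L v hv hg rfl
    have h3 : b (van v) ≤ ∑ V ∈ hfin.toFinset, b V :=
      Finset.single_le_sum (f := b) (fun _ _ => Nat.zero_le _) (hfin.mem_toFinset.2 h1)
    have h4 : ((b (van v) : ℕ) : ℤ) ≤ ((∑ V ∈ hfin.toFinset, b V : ℕ) : ℤ) := by
      exact_mod_cast h3
    push_cast at hS0 h4 ⊢
    linarith

section contact

open MvPolynomial
open Pool.Agent.NH29.GN (Idx Mon fv)
open Pool.Agent.Run7.h789.RC (Sys OnV)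
open Pool.Agent.Run7.h789.FV (mord)

/-- the orders of contact -/
theorem contact_of {M r : ℕ} {V : Set (MvPolynomial (Fin (M + 1)) ℂ)} {d : Fin (r + 1) → ℕ}
    {F : Fin (r + 1) → MvPolynomial (Fin (M + 1)) ℂ} {m B : ℕ} {t : Idx M d → ℂ} {ι : Type} {F' : ι → MvPolynomial (Fin (r + 1)) ℂ}
    (S : Sys V t B F') (htF : ∀ (L : Type) [Field L] [Algebra ℂ L] (u : Fin (M + 1) → L) b,
      fv (K := ℂ) (L := L) t u b = aeval u (F b)) {L : Type} [Field L] [Algebra ℂ L]
    {u : Fin (M + 1) → L} (hu : u ≠ 0) (hmem : ∀ H ∈ V, aeval u H = 0)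
    (hroot : ∀ b c, ∃ ρ : L, ρ ^ m * aeval u (F c) ^ d b = aeval u (F b) ^ d c) {μ : ℕ}
    (hm : μ * ∑ b, d b ≤ m) (P : Place ℂ L) (b : Fin (r + 1)) (hb : fv (K := ℂ) t u b ≠ 0) :
    P.ord (fv (K := ℂ) t u b) ≤ d b * mord P u ∨
      d b * mord P u + μ ≤ P.ord (fv (K := ℂ) t u b) := by
  obtain ⟨hge, b', hc, hco⟩ := S.gd.ord S.hom hu (fun H hH => hmem H hH) P
  by_cases hbo : P.ord (fv (K := ℂ) t u b) = d b * mord P u
  · exact Or.inl hbo.le
  right
  obtain ⟨ρ, hρ⟩ := hroot b b'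
  rw [← htF L, ← htF L] at hρ
  have hne0 : fv (K := ℂ) t u b ^ d b' ≠ 0 := pow_ne_zero _ hb
  have hρ0 : ρ ^ m ≠ 0 := by
    intro h
    apply hne0
    rw [← hρ, h, zero_mul]
  have h1 := congrArg P.ord hρ
  rw [P.ord_mul hρ0 (pow_ne_zero _ hc), P.ord_pow, P.ord_pow, P.ord_pow, hco] at h1
  have h2 := hge b hb
  obtain ⟨e, he⟩ : ∃ e : ℤ, e = P.ord (fv (K := ℂ) t u b) - d b * mord P u := ⟨_, rfl⟩
  have he0 : 0 < e := by
    rcases lt_or_eq_of_le h2 with h | h
    · omega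
    · exact absurd h.symm hbo
  have h3 : (m : ℤ) * P.ord ρ = d b' * e := by
    rw [he]
    linear_combination h1
  have hdc : 1 ≤ d b' := S.pos b'
  have hdc' : (0 : ℤ) < d b' := by exact_mod_cast hdc
  have h4 : 0 < (m : ℤ) * P.ord ρ := by
    rw [h3]
    exact mul_pos hdc' he0
  have h5 : 0 < P.ord ρ := by
    by_contra hcon
    push Not at hcon
    have : (m : ℤ) * P.ord ρ ≤ 0 := mul_nonpos_of_nonneg_of_nonpos (by positivity) hcon
    omega
  have h6 : (m : ℤ) ≤ d b' * e := by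
    rw [← h3]
    nlinarith [show (0 : ℤ) ≤ m by positivity]
  have h7 : μ * d b' ≤ m := by
    refine le_trans (Nat.mul_le_mul_left _ ?_) hm
    exact Finset.single_le_sum (f := d) (fun _ _ => Nat.zero_le _) (Finset.mem_univ b')
  have h8 : ((μ : ℕ) : ℤ) * d b' ≤ e * d b' := by
    have : ((μ : ℕ) : ℤ) * d b' ≤ m := by exact_mod_cast h7
    rw [mul_comm e]
    exact this.trans h6
  have h9 := le_of_mul_le_mul_right h8 hdc'
  rw [he] at h9
  linarith

end contact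

end Run7.h493.SR
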