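import Pool.Agent.Run7.h493.SR.Low
import Pool.Agent.Q103.SF.Pointed
import Pool.Agent.Q239.SF.W4
import Pool.Agent.Q96.HE.Main

/-!
Curves of genus `≤ 1` and subvarieties of surfaces.

The theorems of this file, up to `pht_const`, are those of the starting files
`Pool/Agent/Q103/SF/Alg.lean` and `Pool/Agent/Q103/SF/Main.lean` (with their proofs), repeated here with
the weaker hypothesis `WeakHyp` instead of `HypOff`.
-/

set_option autoImplicit false
set_option maxHeartbeats 400000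
set_option linter.overlappingInstances false
set_option linter.unusedSectionVars false

namespace Run7.h493.SR

open FF
open Pool.Agent.W602.GT
open Pool.Agent.Y216 (OnVar)
open Pool.Agent.W603.LV (canDeg)
open Pool.Agent.W603.PV (pht)
open Pool.Agent.TH466.QG (SubOf)
open Pool.Agent.W602.RG (PointedMaps)
open Pool.Agent.Q96.HE (IsMap eul vanForms surface)
open Pool.Agent.Q96.LS (CentreIn LiesIn nonconst_of Norm)
open Pool.Agent.Q271.RC (IsGeneric IsPoint Nonconst)
open Pool.Agent.Q103.SF (IsElliptic S_gpc S_wei S_low S_kob S_cls S_ptd van vanOn lowCurves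
  KobayashiHyp BrodyHyp NoMero NoElliptic AlgHyp AllGeneral GeomHyp gt_of_canDeg pointed_all)
open Pool.Agent.Y221.BD (EntireCurve)

/-- The projective variety `X` with the generic point `x` is algebraically hyperbolic, and all its
subvarieties are of general type, modulo the proper closed subset given by the form `R`. -/
structure WeakHyp {M : ℕ} {L : Type} [Field L] [Algebra ℂ L] (x : Fin (M + 1) → L)
    (R : MvPolynomial (Fin (M + 1)) ℂ) : Prop where
  form : IsForm R
  ne : val x R ≠ 0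
  /-- all closed subvarieties of positive dimension which are not contained in `R = 0` are of general
  type -/
  sub : ∀ (E : Type) [Field E] [Algebra ℂ E] (w : ℕ) (z : Fin (M + 1) → E), SubOf ℂ x z →
    val z R ≠ 0 → 1 ≤ w → Algebra.trdeg ℂ E = w → GeneralType ℂ E w
  /-- the degree of the morphisms from a curve of genus `g` to `X`, with an image not contained in
  `R = 0`, is at most `A * max (2 * g - 2) 0` -/
  degree : ∃ A : ℕ, ∀ (E : Type) [Field E] [Algebra ℂ E] [IsFF ℂ E] (f : Fin (M + 1) → E),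
    OnVar ℂ x f → val f R ≠ 0 → pht ℂ f ≤ A * max (canDeg ℂ E) 0

variable {M : ℕ} {K : Type} [Field K] [Algebra ℂ K] {x : Fin (M + 1) → K}

/-- no place has its centre in the empty set -/
theorem not_centre {L : Type} [Field L] [Algebra ℂ L] {v : Fin (M + 1) → L}
    (hv : ∃ j, v j ≠ 0) (P : Place ℂ L) :
    ¬ CentreIn ({1} : Set (MvPolynomial (Fin (M + 1)) ℂ)) v P := by
  classical
  intro h
  obtain ⟨j0, hj0⟩ := hv
  let s : Finset (Fin (M + 1)) := Finset.univ.filter fun j => v j ≠ 0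
  have hs : s.Nonempty := ⟨j0, Finset.mem_filter.2 ⟨Finset.mem_univ _, hj0⟩⟩
  obtain ⟨j, hj, hmin⟩ := s.exists_min_image (fun j => P.ord (v j)) hs
  have hN : Norm P v (P.ord (v j)) := ⟨fun i hi =>
    hmin i (Finset.mem_filter.2 ⟨Finset.mem_univ _, hi⟩), j, (Finset.mem_filter.1 hj).2, rfl⟩
  rcases h _ hN 1 rfl 0 (MvPolynomial.isHomogeneous_one _ _) with h1 | h1
  · rw [map_one] at h1
    exact one_ne_zero h1
  · rw [map_one, P.ord_one] at h1
    simp at h1

theorem eul_one {L : Type} [Field L] [Algebra ℂ L] [IsFF ℂ L] {v : Fin (M + 1) → L}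
    (hv : ∃ j, v j ≠ 0) :
    eul ({1} : Set (MvPolynomial (Fin (M + 1)) ℂ)) v = canDeg ℂ L := by
  unfold eul
  have h1 : {P : Place ℂ L | CentreIn ({1} : Set (MvPolynomial (Fin (M + 1)) ℂ)) v P} = ∅ := by
    ext P
    simp only [Set.mem_ofPred_eq, Set.mem_empty_iff_false, iff_false]
    exact not_centre hv P
  rw [h1, Set.ncard_empty]
  simp

theorem not_lies {L : Type} [Field L] [Algebra ℂ L] {v : Fin (M + 1) → L} :
    ¬ LiesIn ({1} : Set (MvPolynomial (Fin (M + 1)) ℂ)) v := by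
  intro h
  have h1 := h 1 rfl
  rw [map_one] at h1
  exact one_ne_zero h1

theorem van_eq {L : Type} [Field L] [Algebra ℂ L] (v : Fin (M + 1) → L) : van v = vanForms v := rfl

theorem low_eq : lowCurves x = Pool.Agent.Q96.HE.lowCurves x {1} := by
  ext V
  constructor
  · rintro ⟨L, i1, i2, i3, v, ⟨hv0, hv⟩, hgen, hc, rfl⟩
    have hg : IsGeneric v := ⟨hv0, hgen⟩
    refine ⟨L, i1, i2, i3, v, ⟨fun G D hG hGx => hv G ⟨D, hG⟩ hGx, not_lies, nonconst_of hg (by
      rw [IsFF.trdeg (k := ℂ) (K := L)]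
      simp)⟩, hg, ?_, rfl⟩
    rw [eul_one hv0]
    exact hc
  · rintro ⟨L, i1, i2, i3, v, hv, hg, hc, rfl⟩
    refine ⟨L, i1, i2, i3, v, ⟨hg.1, fun G hG hGx => ?_⟩, hg.2, ?_, rfl⟩
    · obtain ⟨D, hD⟩ := hG
      exact hv.point G D hD hGx
    · rw [eul_one hg.1] at hc
      exact hc

/-- curves of general type -/
theorem pos_of_gt {L : Type} [Field L] [Algebra ℂ L] [IsFF ℂ L] (h : GeneralType ℂ L 1) :
    0 < canDeg ℂ L := by
  obtain ⟨h1, N, hN, ω, h2, h3, h4⟩ := h
  have h5 : LogGeneralType ℂ L 1 (fun _ => False) := by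
    refine ⟨h1, N, hN, ω, h2, fun P hP j D hD => ?_, fun P hP _ j => h3 P hP j, h4⟩
    refine h3 P hP j D fun i f hf => ?_
    by_cases hf0 : f = 0
    · rw [hf0, map_zero]
      exact Or.inl rfl
    have h6 := P.reg_mul (hD i f) hf
    rwa [div_mul_cancel₀ _ hf0] at h6
  have h6 := Pool.Agent.Q96.HE.pos_of_lgt (Bd := fun _ : Place ℂ L => False) (by simp) h5
  simpa using h6

/-- **Curves in surfaces.** -/
theorem alg (htr : Algebra.trdeg ℂ K = (2 : ℕ)) (hx : x ≠ 0) (hgen : coords ℂ x = ⊤)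
    {R : MvPolynomial (Fin (M + 1)) ℂ} (hR : WeakHyp x R) :
    (lowCurves x).Finite ∧
    (∃ A : ℕ, ∀ (L : Type) [Field L] [Algebra ℂ L] [IsFF ℂ L] (v : Fin (M + 1) → L),
      OnVar ℂ x v → Nonconst v → pht ℂ v ≤ A * canDeg ℂ L ∨ van v ∈ lowCurves x) ∧
    ∀ (E : Type) [Field E] [Algebra ℂ E] (w : ℕ) (z : Fin (M + 1) → E), SubOf ℂ x z → 1 ≤ w →
      Algebra.trdeg ℂ E = w → GeneralType ℂ E w ∨ van z ∈ lowCurves x := by
  classical
  obtain ⟨e, he⟩ := hR.form
  obtain ⟨A, hA⟩ := hR.degree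
  have hb : IsGeneric x := ⟨by
    obtain ⟨i, hi⟩ := Function.ne_iff.1 hx
    exact ⟨i, hi⟩, hgen⟩
  have hon : ∀ (L : Type) [Field L] [Algebra ℂ L] (v : Fin (M + 1) → L), IsPoint x v →
      (∃ j, v j ≠ 0) → OnVar ℂ x v := fun L _ _ v hv hv0 => ⟨hv0, fun G hG hGx => by
    obtain ⟨D, hD⟩ := hG
    exact hv G D hD hGx⟩
  -- points of transcendence degree two
  have htwo : ∀ (L : Type) [Field L] [Algebra ℂ L] (v : Fin (M + 1) → L), IsPoint x v →
      IsGeneric v → Algebra.trdeg ℂ L = (2 : ℕ) → GeneralType ℂ L 2 := by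
    intro L _ _ v hv hvg ht
    obtain ⟨-, hiso⟩ := Pool.Agent.Q96.OS.gen_point' hb htr L v 2 hv hvg ht
    obtain ⟨σ, l, hl, hvl, -⟩ := hiso rfl
    refine hR.sub L 2 v ⟨?_, hvg.2, fun G hG hGx => (hon L v hv hvg.1).2 G hG hGx⟩ ?_ (by norm_num)
      ht
    · intro h0
      obtain ⟨j, hj⟩ := hvg.1
      exact hj (congrFun h0 j)
    · have h1 : val v R = l ^ e * σ (val x R) := by
        have h2 : v = fun i => l * (fun i => σ (x i)) i := funext hvl
        have h3 : val (fun i => σ (x i)) R = σ (val x R) := by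
          unfold Pool.Agent.W602.GT.val
          rw [MvPolynomial.comp_aeval_apply]
        rw [h2, val_smul he, h3]
      rw [h1]
      exact mul_ne_zero (pow_ne_zero _ hl) ((map_ne_zero σ).2 hR.ne)
  obtain ⟨h1, ⟨A', h2⟩, -, -, -, -⟩ := surface (b := x) (d := 2) hb htr le_rfl
    (D := ({1} : Set (MvPolynomial (Fin (M + 1)) ℂ))) (by
      intro F hF
      rw [Set.mem_singleton_iff] at hF
      rw [hF]
      exact ⟨0, MvPolynomial.isHomogeneous_one _ _⟩) (by
      intro L _ _ v hv hvg _ ht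
      obtain ⟨g1, N, hN, ω, g2, g3, g4⟩ := htwo L v hv hvg ht
      refine ⟨g1, N, hN, ω, g2, fun P hP j D hD => ?_, fun P hP _ j => g3 P hP j, g4⟩
      refine g3 P hP j D fun i f hf => ?_
      by_cases hf0 : f = 0
      · rw [hf0, map_zero]
        exact Or.inl rfl
      have h6 := P.reg_mul (hD i f) hf
      rwa [div_mul_cancel₀ _ hf0] at h6) (G := R) (E := e) (R := A) he hR.ne (by
      intro L _ _ _ v hv hvR
      have hv0 : ∃ j, v j ≠ 0 := by
        obtain ⟨i, j, hj, -⟩ := hv.nonconst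
        exact ⟨j, hj⟩
      rw [eul_one hv0]
      have h3 := hA L v (hon L v hv.point hv0) hvR
      have h4 := Pool.Agent.Q96.LS.pht_pos v hv.nonconst
      rcases le_or_gt (canDeg ℂ L) 0 with h5 | h5
      · rw [max_eq_right h5, mul_zero] at h3
        omega
      · rwa [max_eq_left h5.le] at h3)
  refine ⟨by rw [low_eq]; exact h1, ⟨A', fun L _ _ _ v hv hnc => ?_⟩, ?_⟩
  · have hm : IsMap x ({1} : Set (MvPolynomial (Fin (M + 1)) ℂ)) v :=
      ⟨fun G D hG hGx => hv.2 G ⟨D, hG⟩ hGx, not_lies, hnc⟩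
    rw [low_eq, van_eq]
    have h3 := h2 L v hm
    rwa [eul_one hv.1] at h3
  · intro E _ _ w z hz hw ht
    have hz0 : ∃ j, z j ≠ 0 := by
      obtain ⟨i, hi⟩ := Function.ne_iff.1 hz.ne
      exact ⟨i, hi⟩
    have hzp : IsPoint x z := fun G D hG hGx => hz.spec G ⟨D, hG⟩ hGx
    have hzg : IsGeneric z := ⟨hz0, hz.gen⟩
    obtain ⟨hw2, -⟩ := Pool.Agent.Q96.OS.gen_point' hb htr E z w hzp hzg ht
    rcases (by omega : w = 1 ∨ w = 2) with rfl | rfl
    · have hff : IsFF ℂ E := ⟨Pool.Agent.Q72.NA.ess_of_adjoin hz.gen, by rw [ht]; simp⟩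
      rcases le_or_gt (canDeg ℂ E) 0 with h3 | h3
      · right
        exact ⟨E, inferInstance, inferInstance, hff, z, ⟨hz0, hz.spec⟩, hz.gen, h3, rfl⟩
      · left
        exact gt_of_canDeg h3
    · left
      exact htwo E z hzp hzg ht

theorem pht_const {L : Type} [Field L] [Algebra ℂ L] [IsFF ℂ L] {v : Fin (M + 1) → L}
    (hv : ∃ j, v j ≠ 0) (h : ¬ Nonconst v) : pht ℂ v ≤ 0 := by
  by_contra hcon
  exact h (Pool.Agent.Q96.OS.nonconst_of_pht hv (not_le.1 hcon))


/-- **The notions of hyperbolicity** for a surface whose entire curves are contained in curves. -/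
theorem tfae_all (htr : Algebra.trdeg ℂ K = (2 : ℕ)) (hx : x ≠ 0) (hgen : coords ℂ x = ⊤)
    {R : MvPolynomial (Fin (M + 1)) ℂ} (hR : WeakHyp x R)
    (h : ∀ f, EntireCurve x f → vanOn Set.univ (fun t i => f i t) ∈ lowCurves x) :
    (lowCurves x).Finite ∧
    List.TFAE [BrodyHyp x, AllGeneral x, GeomHyp x, KobayashiHyp x, AlgHyp x, NoMero x,
      NoElliptic x, lowCurves x = ∅] := by
  obtain ⟨hfin, hdeg, hsub⟩ := alg htr hx hgen hR
  refine ⟨hfin, ?_⟩
  have hp : S_ptd := Pool.Agent.Q239.SF.ptd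
  have h0 := tfae h
  tfae_have 4 ↔ 1 := h0.out 0 1
  tfae_have 6 ↔ 1 := h0.out 2 1
  tfae_have 7 ↔ 1 := h0.out 3 1
  tfae_have 8 ↔ 1 := h0.out 4 1
  tfae_have 8 → 5 := by
    intro h0
    obtain ⟨A, hA⟩ := hdeg
    refine ⟨A, fun L _ _ _ v hv hn => ?_⟩
    rcases hA L v hv hn with h1 | h1
    · exact h1
    · rw [h0] at h1
      exact h1.elim
  tfae_have 5 → 8 := by
    rintro ⟨A, hA⟩
    rw [Set.eq_empty_iff_forall_notMem]
    rintro V ⟨L, _, _, _, v, hv, hgen, hc, rfl⟩
    have hn := nonconst_of_low hv hgen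
    have h1 := hA L v hv hn
    have h2 := Pool.Agent.Q96.LS.pht_pos v hn
    have h3 : (A : ℤ) * canDeg ℂ L ≤ 0 := mul_nonpos_of_nonneg_of_nonpos (by positivity) hc
    omega
  tfae_have 8 → 2 := by
    intro h0 E _ _ w z hz hw ht
    rcases hsub E w z hz hw ht with h1 | h1
    · exact h1
    · rw [h0] at h1
      exact h1.elim
  tfae_have 2 → 8 := by
    intro h0
    rw [Set.eq_empty_iff_forall_notMem]
    rintro V ⟨L, _, _, _, v, hv, hgen, hc, rfl⟩
    have hne : v ≠ 0 := by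
      obtain ⟨j, hj⟩ := hv.1
      intro h
      exact hj (congrFun h j)
    have h1 := h0 L 1 v ⟨hne, hgen, hv.2⟩ le_rfl (by
      rw [IsFF.trdeg (k := ℂ) (K := L)]
      simp)
    have h2 := pos_of_gt h1
    omega
  tfae_have 5 → 3 := by
    rintro ⟨A, hA⟩ E _ _ _ c a ha
    refine pointed_all (B := A) (fun L _ _ _ f hf => ?_) E c a ha
    by_cases hn : Nonconst f
    · have h1 := hA L f hf hn
      have h2 : (A : ℤ) * canDeg ℂ L ≤ A * max (canDeg ℂ L) 0 :=
        mul_le_mul_of_nonneg_left (le_max_left _ _) (by positivity)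
      exact h1.trans h2
    · exact (pht_const hf.1 hn).trans (by positivity)
  tfae_have 3 → 8 := by
    intro h0
    rw [Set.eq_empty_iff_forall_notMem]
    rintro V ⟨L, _, _, _, v, hv, hgen, hc, rfl⟩
    obtain ⟨c, a, ha, hinf⟩ := hp L hc M v (nonconst_of_low hv hgen)
    apply hinf
    refine (h0 L c a ⟨ha.1, fun G hG hGx => ha.2 G hG (hv.2 G hG hGx)⟩).subset ?_
    rintro φ ⟨f, hf, h1, h2, h3⟩
    exact ⟨f, hf, fun H hH hHx => h1 H hH (hv.2 H hH hHx), h2, h3⟩
  tfae_finish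

end Run7.h493.SR
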