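import Pool.Agent.Run7.h493.SR.Spec
import Pool.Agent.Run7.h493.SR.Alg2

/-!
Surfaces whose function fields contain the roots of the quotients of general forms: all the notions of
hyperbolicity.
-/

set_option autoImplicit false

namespace Run7.h493.SR

open MvPolynomial FF
open Pool.Agent.W602.GT (GeneralType coords IsForm)
open Pool.Agent.NH29.GN (Idx Mon fv)
open Pool.Agent.Run7.h789.RC (Sys OnV)
open Pool.Agent.W603.LV (canDeg)
open Pool.Agent.W603.PV (pht)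
open Pool.Agent.Y216 (OnVar)
open Pool.Agent.TH466.QG (SubOf)

variable {M N r : ℕ}

/-- hyperbolicity modulo a proper closed subset -/
theorem exists_weakHyp {V : Set (MvPolynomial (Fin (M + 1)) ℂ)}
    (hVh : ∀ H ∈ V, ∃ e, H.IsHomogeneous e) {d : Fin (r + 1) → ℕ}
    {F : Fin (r + 1) → MvPolynomial (Fin (M + 1)) ℂ} (hF : ∀ b, (F b).IsHomogeneous (d b))
    {B : ℕ} {t : Idx M d → ℂ} {ι : Type} {F' : ι → MvPolynomial (Fin (r + 1)) ℂ}
    (S : Sys V t B F') (htF : ∀ (L : Type) [Field L] [Algebra ℂ L] (u : Fin (M + 1) → L) b,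
      fv (K := ℂ) (L := L) t u b = aeval u (F b)) {A₀ μ : ℕ}
    (hht : ∀ (L : Type) [Field L] [Algebra ℂ L] [IsFF ℂ L] (u : Fin (M + 1) → L), u ≠ 0 →
      OnV (K := ℂ) V u → (∀ (P : Place ℂ L) (b : Fin (r + 1)), fv (K := ℂ) t u b ≠ 0 →
        P.ord (fv (K := ℂ) t u b) ≤ d b * Pool.Agent.Run7.h789.FV.mord P u ∨
          d b * Pool.Agent.Run7.h789.FV.mord P u + μ ≤ P.ord (fv (K := ℂ) t u b)) →
      pht ℂ u ≤ A₀ * max (canDeg ℂ L) 0) {m : ℕ}
    (hm : (Run7.h34.UG.mm r B + μ) * ∑ b, d b ≤ m)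
    {K : Type} [Field K] [Algebra ℂ K] {v : Fin (M + 1) → K} (hvV : ∀ H ∈ V, aeval v H = 0)
    (hv0 : ∃ j, v j ≠ 0) (hne : ∀ b, aeval v (F b) ≠ 0)
    (hroot : ∀ b c, ∃ ρ : K, ρ ^ m * aeval v (F c) ^ d b = aeval v (F b) ^ d c)
    (halg : Algebra.IsAlgebraic (coords ℂ v) K) {x : Fin (N + 1) → K} (hx : x ≠ 0)
    (hgen : coords ℂ x = ⊤) : ∃ R, WeakHyp x R := by
  classical
  obtain ⟨j₀, hj₀⟩ := hv0
  obtain ⟨R, A, k₀, D, c, hR, hxR, hU⟩ := exists_under hVh hF hvV hj₀ hne hroot halg hx hgen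
  have hm1 : Run7.h34.UG.mm r B * ∑ b, d b ≤ m :=
    le_trans (Nat.mul_le_mul_right _ (Nat.le_add_right _ _)) hm
  have hm2 : μ * ∑ b, d b ≤ m := le_trans (Nat.mul_le_mul_right _ (Nat.le_add_left _ _)) hm
  refine ⟨R, hR, hxR, fun E _ _ w z hz hzR hw ht => ?_,
    A₀ * (∑ i, (∑ l ∈ Finset.range (D i + 1), (c i l).totalDegree * (M + 1))),
    fun L _ _ _ f hf hfR => ?_⟩
  · have h := hU E z hz.spec hzR
    refine Run7.h493.TS.gt_of_roots S (x := fun j => aeval z (A j))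
      (fun h0 => h.hj (congrFun h0 j₀)) (fun H hH => h.mem H hH) hw ht (h.alg hz.gen) (m := m) hm1
      fun b b' => ?_
    rw [htF E, htF E]
    exact h.root b b'
  · have h := hU L f hf.2 hfR
    have h1 := hht L (fun j => aeval f (A j)) (fun h0 => h.hj (congrFun h0 j₀))
      (fun H hH => h.mem H hH) (fun P b hb => h.contact S htF hm2 P b hb)
    have h2 := h.pht
    refine h2.trans ((mul_le_mul_of_nonneg_left h1 (Int.natCast_nonneg _)).trans (le_of_eq ?_))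
    push_cast
    ring

end Run7.h493.SR
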