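import Pool.Agent.Run7.h493.TS.Fib
import Pool.Agent.N459.JS.Weier
import Pool.Agent.Y221.BD.Defs

/-!
Entire curves in projective varieties whose function fields contain the roots of the quotients of
general forms.
-/

set_option autoImplicit false

namespace Run7.h493.SR

open MvPolynomial
open Pool.Agent.W602.GT (GeneralType coords IsForm)
open Pool.Agent.Y221.BD (EntireCurve)

variable {M N n q : ℕ}

open Run7.h493.TS
open Filter Topology
open Pool.Agent.NH29.GN (Idx Mon fv NoZero)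

theorem fv_eq {K : Type} [Field K] [Algebra ℂ K] {d : Fin q → ℕ}
    {F : Fin q → MvPolynomial (Fin (M + 1)) ℂ} (hF : ∀ b, (F b).IsHomogeneous (d b))
    (x : Fin (M + 1) → K) (b : Fin q) :
    fv (K := ℂ) (L := K) (fun s : Idx M d => coeff s.2.1 (F s.1)) x b = aeval x (F b) := by
  classical
  rw [aeval_def]
  exact (Pool.Agent.NH29.GN.Stc.eval₂_form (algebraMap ℂ K) x (hF b)).symm

theorem hh_eq {d : Fin q → ℕ} {F : Fin q → MvPolynomial (Fin (M + 1)) ℂ}
    (hF : ∀ b, (F b).IsHomogeneous (d b)) (f : Fin (M + 1) → ℂ → ℂ) (b : Fin q) :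
    hh (kt fun s : Idx M d => coeff s.2.1 (F s.1)) f b =
      fun z => eval (fun i => f i z) (F b) := by
  funext z
  exact fv_eq hF (fun i => f i z) b

theorem diff_form {f : Fin (M + 1) → ℂ → ℂ} (hf : ∀ j, Differentiable ℂ (f j))
    (P : MvPolynomial (Fin (M + 1)) ℂ) : Differentiable ℂ fun z => eval (fun i => f i z) P := by
  induction P using MvPolynomial.induction_on with
  | C a => simp only [eval_C]; exact differentiable_const _
  | add P Q hP hQ => simp only [map_add]; exact hP.fun_add hQ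
  | mul_X P i hP =>
    simp only [map_mul, eval_X]
    exact hP.fun_mul (hf i)

theorem freq {g : ℂ → ℂ} (hg : Differentiable ℂ g) (h : ∃ z, g z ≠ 0) (z : ℂ) :
    ∃ᶠ w in 𝓝[≠] z, g w ≠ 0 :=
  (Pool.Agent.TH143.EL.codis_ev (Run7.h493.TS.diff_ne hg h) z).frequently

/-- a continuous function which vanishes off the zeros of an entire function vanishes -/
theorem zero_of_off {g k : ℂ → ℂ} (hg : Differentiable ℂ g) (h : ∃ z, g z ≠ 0)
    (hk : Continuous k) (hz : ∀ z, g z ≠ 0 → k z = 0) (z : ℂ) : k z = 0 := by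
  have hev : ∀ᶠ w in 𝓝[≠] z, g w ≠ 0 := Pool.Agent.TH143.EL.codis_ev (Run7.h493.TS.diff_ne hg h) z
  have h3 : Tendsto k (𝓝[≠] z) (𝓝 (k z)) := hk.continuousAt.mono_left nhdsWithin_le_nhds
  have h4 : Tendsto k (𝓝[≠] z) (𝓝 0) := tendsto_const_nhds.congr' (by
    filter_upwards [hev] with s hs
    exact (hz s hs).symm)
  exact tendsto_nhds_unique h3 h4

theorem hom_scale {L : Type} [Field L] [Algebra ℂ L] {P : MvPolynomial (Fin (M + 1)) ℂ} {e : ℕ}
    (hP : P.IsHomogeneous e) (c : L) (y : Fin (M + 1) → L) :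
    aeval (fun i => c * y i) P = c ^ e * aeval y P := by
  rw [aeval_def, aeval_def, eval₂_eq', eval₂_eq', Finset.mul_sum]
  refine Finset.sum_congr rfl fun a ha => ?_
  have h1 : ∑ i, a i = e := by
    have h2 := hP (mem_support_iff.1 ha)
    rw [← h2]
    simp [Finsupp.weight_apply, Finsupp.sum_fintype]
  have h2 : ∏ i, (c * y i) ^ a i = c ^ e * ∏ i, y i ^ a i := by
    rw [← h1, ← Finset.prod_pow_eq_pow_sum, ← Finset.prod_mul_distrib]
    exact Finset.prod_congr rfl fun i _ => by rw [mul_pow]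
  rw [h2]
  ring

theorem hom_scale_eval {P : MvPolynomial (Fin (M + 1)) ℂ} {e : ℕ}
    (hP : P.IsHomogeneous e) (c : ℂ) (y : Fin (M + 1) → ℂ) :
    eval (fun i => c * y i) P = c ^ e * eval y P :=
  hom_scale (L := ℂ) hP c y

/-- the elements of the function field are quotients of forms -/
theorem frac {K : Type} [Field K] [Algebra ℂ K] {x : Fin (N + 1) → K}
    (hgen : coords ℂ x = ⊤) (ρ : K) :
    ∃ (R S : MvPolynomial (Fin (N + 1)) ℂ) (D : ℕ), R.IsHomogeneous D ∧ S.IsHomogeneous D ∧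
      aeval x S ≠ 0 ∧ ρ * aeval x S = aeval x R := by
  have hρ : ρ ∈ IntermediateField.adjoin ℂ {z | ∃ i j, x j ≠ 0 ∧ z = x i / x j} := by
    have h1 : IntermediateField.adjoin ℂ {z | ∃ i j, x j ≠ 0 ∧ z = x i / x j} = ⊤ := hgen
    rw [h1]
    exact IntermediateField.mem_top
  induction hρ using IntermediateField.adjoin_induction with
  | mem f hf =>
    obtain ⟨i, j, hj, rfl⟩ := hf
    refine ⟨X i, X j, 1, isHomogeneous_X _ _, isHomogeneous_X _ _, ?_, ?_⟩
    · rwa [aeval_X]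
    · rw [aeval_X, aeval_X, div_mul_cancel₀ _ hj]
  | algebraMap c =>
    refine ⟨C c, 1, 0, isHomogeneous_C _ _, isHomogeneous_one _ _, ?_, ?_⟩
    · rw [map_one]
      exact one_ne_zero
    · rw [map_one, mul_one, aeval_C]
  | add f g _ _ hf hg =>
    obtain ⟨R₁, S₁, D₁, h1, h2, h3, h4⟩ := hf
    obtain ⟨R₂, S₂, D₂, k1, k2, k3, k4⟩ := hg
    refine ⟨R₁ * S₂ + R₂ * S₁, S₁ * S₂, D₁ + D₂, ?_, h2.mul k2, ?_, ?_⟩
    · refine (h1.mul k2).add ?_
      have := k1.mul h2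
      rwa [add_comm D₂] at this
    · rw [map_mul]
      exact mul_ne_zero h3 k3
    · rw [map_mul, map_add, map_mul, map_mul, ← h4, ← k4]
      ring
  | inv f _ hf =>
    obtain ⟨R₁, S₁, D₁, h1, h2, h3, h4⟩ := hf
    by_cases h0 : f = 0
    · refine ⟨0, S₁, D₁, isHomogeneous_zero _ _ _, h2, h3, ?_⟩
      rw [h0, inv_zero, zero_mul, map_zero]
    · refine ⟨S₁, R₁, D₁, h2, h1, ?_, ?_⟩
      · rw [← h4]
        exact mul_ne_zero h0 h3
      · rw [← h4, inv_mul_cancel_left₀ h0]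
  | mul f g _ _ hf hg =>
    obtain ⟨R₁, S₁, D₁, h1, h2, h3, h4⟩ := hf
    obtain ⟨R₂, S₂, D₂, k1, k2, k3, k4⟩ := hg
    refine ⟨R₁ * R₂, S₁ * S₂, D₁ + D₂, h1.mul k1, h2.mul k2, ?_, ?_⟩
    · rw [map_mul]
      exact mul_ne_zero h3 k3
    · rw [map_mul, map_mul, ← h4, ← k4]
      ring

/-- rational maps are given by forms -/
theorem frac_family {K : Type} [Field K] [Algebra ℂ K] {x : Fin (N + 1) → K}
    (hgen : coords ℂ x = ⊤) (v : Fin (M + 1) → K) :
    ∃ (A : Fin (M + 1) → MvPolynomial (Fin (N + 1)) ℂ) (e : ℕ) (s : K),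
      (∀ i, (A i).IsHomogeneous e) ∧ s ≠ 0 ∧ ∀ i, aeval x (A i) = s * v i := by
  classical
  choose R S D hR hS hS0 hRS using fun i => frac hgen (v i)
  refine ⟨fun i => R i * ∏ j ∈ Finset.univ.erase i, S j, ∑ j, D j, ∏ j, aeval x (S j),
    fun i => ?_, Finset.prod_ne_zero_iff.2 fun j _ => hS0 j, fun i => ?_⟩
  · have h1 : (∏ j ∈ Finset.univ.erase i, S j).IsHomogeneous (∑ j ∈ Finset.univ.erase i, D j) :=
      IsHomogeneous.prod _ _ _ fun j _ => hS j
    have h2 := (hR i).mul h1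
    rwa [Finset.add_sum_erase _ _ (Finset.mem_univ i)] at h2
  · rw [map_mul, map_prod, ← Finset.mul_prod_erase _ _ (Finset.mem_univ i), ← hRS i]
    ring

/-- compositions of forms -/
theorem comp_hom {A : Fin (M + 1) → MvPolynomial (Fin (N + 1)) ℂ} {e k : ℕ}
    (hA : ∀ i, (A i).IsHomogeneous e) {P : MvPolynomial (Fin (M + 1)) ℂ} (hP : P.IsHomogeneous k) :
    (bind₁ A P).IsHomogeneous (e * k) :=
  hP.aeval A hA

theorem aeval_comp {L : Type} [Field L] [Algebra ℂ L] (A : Fin (M + 1) → MvPolynomial (Fin (N + 1)) ℂ)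
    (P : MvPolynomial (Fin (M + 1)) ℂ) (x : Fin (N + 1) → L) :
    aeval x (bind₁ A P) = aeval (fun i => aeval x (A i)) P :=
  aeval_bind₁ _ _ _

theorem eval_comp (A : Fin (M + 1) → MvPolynomial (Fin (N + 1)) ℂ)
    (P : MvPolynomial (Fin (M + 1)) ℂ) (x : Fin (N + 1) → ℂ) :
    eval x (bind₁ A P) = eval (fun i => eval x (A i)) P :=
  aeval_comp (L := ℂ) A P x

/-- the second main theorem for curves with roots -/
theorem const_of_roots {V : Set (MvPolynomial (Fin (M + 1)) ℂ)} {d : Fin q → ℕ}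
    (hd : ∀ b, 1 ≤ d b) {Φ : MvPolynomial (Idx M d) ℂ} (hΦ : AllNB ℂ V Φ) {m₀ : ℕ}
    (hm₀ : ∀ t : Idx M d → ℂ, aeval t Φ ≠ 0 → ∀ f : Fin (M + 1) → ℂ → ℂ,
      (∀ i, Differentiable ℂ (f i)) → (∀ z, ∃ i, f i z ≠ 0) →
      (∀ z, ∀ H ∈ V, aeval (fun i => f i z) H = 0) →
      (∀ z, (∃ b, (∃ w, hh (kt t) f b w ≠ 0) ∧ hh (kt t) f b z = 0) →
        ∃ b, (∃ w, hh (kt t) f b w ≠ 0) ∧ (m₀ : ℕ∞) ≤ analyticOrderAt (hh (kt t) f b) z) →
      ∀ z w i j, f i z * f j w = f j z * f i w)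
    {F : Fin q → MvPolynomial (Fin (M + 1)) ℂ} (hF : ∀ b, (F b).IsHomogeneous (d b))
    (hFΦ : eval (fun s : Idx M d => coeff s.2.1 (F s.1)) Φ ≠ 0) {m : ℕ}
    (hm : m₀ * ∑ b, d b ≤ m) {R S : Fin q → Fin q → ℂ → ℂ} {f : Fin (M + 1) → ℂ → ℂ}
    (hRd : ∀ b c, Differentiable ℂ (R b c)) (hSd : ∀ b c, Differentiable ℂ (S b c))
    (hf : ∀ j, Differentiable ℂ (f j)) (hf0 : ∀ z, ∃ i, f i z ≠ 0)
    (hV : ∀ z, ∀ H ∈ V, eval (fun i => f i z) H = 0)
    (hR : ∀ b c z, R b c z ^ m * eval (fun i => f i z) (F c) ^ d b =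
      S b c z ^ m * eval (fun i => f i z) (F b) ^ d c)
    (h1 : ∀ b, ∃ z, eval (fun i => f i z) (F b) ≠ 0) (h2 : ∀ b c, ∃ z, S b c z ≠ 0) (z w : ℂ) :
    ∃ c : ℂ, ∀ i, f i z = c * f i w := by
  have h3 := hm₀ (fun s => coeff s.2.1 (F s.1)) hFΦ f hf hf0 hV (fun z hz => by
      simp only [hh_eq hF] at hz ⊢
      obtain ⟨b, -, hbz⟩ := hz
      obtain ⟨c, hc⟩ : ∃ c, eval (fun i => f i z) (F c) ≠ 0 := by
        by_contra hcon
        push Not at hcon
        obtain ⟨i, hi⟩ := hf0 z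
        apply hi
        have h4 := (hΦ ℂ _ hFΦ).ncz (fun i => f i z) (hV z) fun c => by
          rw [fv_eq hF]
          exact hcon c
        exact congrFun h4 i
      refine ⟨b, h1 b, ?_⟩
      have hle : m₀ * d c ≤ m := by
        refine le_trans (Nat.mul_le_mul_left _ ?_) hm
        exact Finset.single_le_sum (f := d) (fun _ _ => Nat.zero_le _) (Finset.mem_univ c)
      exact order_ge (R := R b c) (S := S b c)
        (F := fun z => eval (fun i => f i z) (F b)) (G := fun z => eval (fun i => f i z) (F c))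
        ((hRd b c).analyticAt z) ((hSd b c).analyticAt z)
        ((diff_form hf _).analyticAt z) ((diff_form hf _).analyticAt z)
        (freq (hSd b c) (h2 b c) z) (freq (diff_form hf _) (h1 b) z)
        (Eventually.of_forall fun w => hR b c w) hbz hc (hd c) hle)
  obtain ⟨j, hj⟩ := hf0 w
  refine ⟨f j z / f j w, fun i => ?_⟩
  have h4 := h3 z w i j
  field_simp
  linear_combination h4

/-- an entire curve in `X` is contained in the zeros of a form which does not vanish on `X` -/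
theorem degenerate {V : Set (MvPolynomial (Fin (M + 1)) ℂ)} (hVh : ∀ H ∈ V, ∃ e, H.IsHomogeneous e)
    {d : Fin q → ℕ} (hd : ∀ b, 1 ≤ d b) {Φ : MvPolynomial (Idx M d) ℂ} (hΦ : AllNB ℂ V Φ) {m₀ : ℕ}
    (hm₀ : ∀ t : Idx M d → ℂ, aeval t Φ ≠ 0 → ∀ f : Fin (M + 1) → ℂ → ℂ,
      (∀ i, Differentiable ℂ (f i)) → (∀ z, ∃ i, f i z ≠ 0) →
      (∀ z, ∀ H ∈ V, aeval (fun i => f i z) H = 0) →
      (∀ z, (∃ b, (∃ w, hh (kt t) f b w ≠ 0) ∧ hh (kt t) f b z = 0) →
        ∃ b, (∃ w, hh (kt t) f b w ≠ 0) ∧ (m₀ : ℕ∞) ≤ analyticOrderAt (hh (kt t) f b) z) →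
      ∀ z w i j, f i z * f j w = f j z * f i w)
    {F : Fin q → MvPolynomial (Fin (M + 1)) ℂ} (hF : ∀ b, (F b).IsHomogeneous (d b))
    (hFΦ : eval (fun s : Idx M d => coeff s.2.1 (F s.1)) Φ ≠ 0) {m : ℕ}
    (hm : m₀ * ∑ b, d b ≤ m) {K : Type} [Field K] [Algebra ℂ K] {v : Fin (M + 1) → K}
    (hvV : ∀ H ∈ V, aeval v H = 0)
    (hvn : ∃ i j, v j ≠ 0 ∧ ∀ c : ℂ, v i ≠ c • v j) (hne : ∀ b, aeval v (F b) ≠ 0) 
    (hroot : ∀ b c, ∃ ρ : K, ρ ^ m * aeval v (F c) ^ d b = aeval v (F b) ^ d c)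
    {x : Fin (N + 1) → K} (hgen : coords ℂ x = ⊤) {f : Fin (N + 1) → ℂ → ℂ}
    (hf : EntireCurve x f) :
    ∃ Q : MvPolynomial (Fin (N + 1)) ℂ, IsForm Q ∧ aeval x Q ≠ 0 ∧
      ∀ z, eval (fun i => f i z) Q = 0 := by
  classical
  by_contra hno
  push Not at hno
  obtain ⟨A, e, s, hA, hs, hAv⟩ := frac_family hgen v
  choose ρ hρ using hroot
  choose R S D hRh hSh hS0 hRS using fun b c => frac hgen (ρ b c)
  -- composition with forms
  have hAx : ∀ {k : ℕ} {P : MvPolynomial (Fin (M + 1)) ℂ}, P.IsHomogeneous k →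
      aeval x (bind₁ A P) = s ^ k * aeval v P := by
    intro k P hP
    rw [aeval_comp, ← hom_scale hP]
    congr 2
    funext i
    exact hAv i
  obtain ⟨g, hg⟩ : ∃ g : Fin (M + 1) → ℂ → ℂ, g = fun i z => eval (fun l => f l z) (A i) := ⟨_, rfl⟩
  have hgd : ∀ i, Differentiable ℂ (g i) := by
    intro i
    rw [hg]
    exact diff_form hf.hol (A i)
  have hgP : ∀ (P : MvPolynomial (Fin (M + 1)) ℂ) (z : ℂ),
      eval (fun l => f l z) (bind₁ A P) = eval (fun i => g i z) P := by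
    intro P z
    rw [eval_comp, hg]
  -- the values of the forms
  obtain ⟨i₀, j₀, hj₀, hij⟩ := hvn
  have hgne : ∃ i t, g i t ≠ 0 := by
    obtain ⟨t, ht⟩ := hno (A j₀) ⟨e, hA j₀⟩ (by
      rw [hAv]
      exact mul_ne_zero hs hj₀)
    refine ⟨j₀, t, ?_⟩
    rw [hg]
    exact ht
  obtain ⟨p, h, hpd, hhd, hgh, hh0⟩ := Pool.Agent.N459.JS.remove g hgd hgne
  have hp : ∃ z, p z ≠ 0 := by
    obtain ⟨i, t, hit⟩ := hgne
    refine ⟨t, fun h0 => hit ?_⟩
    rw [hgh, h0, zero_mul]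
  have hghP : ∀ {k : ℕ} {P : MvPolynomial (Fin (M + 1)) ℂ}, P.IsHomogeneous k → ∀ z,
      eval (fun i => g i z) P = p z ^ k * eval (fun i => h i z) P := by
    intro k P hP z
    rw [← hom_scale_eval hP]
    congr 2
    funext i
    exact hgh i z
  have hcP : ∀ P : MvPolynomial (Fin (M + 1)) ℂ, Continuous fun z => eval (fun i => h i z) P :=
    fun P => (diff_form hhd P).continuous
  -- the curve in `V`
  have hVh' : ∀ z, ∀ H ∈ V, eval (fun i => h i z) H = 0 := by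
    intro z H hH
    obtain ⟨k, hk⟩ := hVh H hH
    refine zero_of_off hpd hp (hcP H) (fun z hz => ?_) z
    have h1 := hf.mem (bind₁ A H) ⟨_, comp_hom hA hk⟩ (by
      show aeval x (bind₁ A H) = 0
      rw [hAx hk, hvV H hH, mul_zero]) z
    rw [hgP, hghP hk] at h1
    exact (mul_eq_zero.1 h1).resolve_left (pow_ne_zero _ hz)
  have hrel : ∀ b c z, eval (fun l => f l z) (R b c) ^ m * eval (fun i => h i z) (F c) ^ d b =
      eval (fun l => f l z) (S b c) ^ m * eval (fun i => h i z) (F b) ^ d c := by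
    intro b c z
    rw [← sub_eq_zero]
    refine zero_of_off hpd hp (k := fun z => eval (fun l => f l z) (R b c) ^ m *
      eval (fun i => h i z) (F c) ^ d b - eval (fun l => f l z) (S b c) ^ m *
      eval (fun i => h i z) (F b) ^ d c) ?_ (fun z hz => ?_) z
    · exact (((diff_form hf.hol _).continuous.pow m).mul ((hcP _).pow _)).sub
        (((diff_form hf.hol _).continuous.pow m).mul ((hcP _).pow _))
    · obtain ⟨P, hP⟩ : ∃ P : MvPolynomial (Fin (N + 1)) ℂ, P = R b c ^ m * bind₁ A (F c) ^ d b -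
        S b c ^ m * bind₁ A (F b) ^ d c := ⟨_, rfl⟩
      have h1 : (R b c ^ m * bind₁ A (F c) ^ d b).IsHomogeneous (D b c * m + e * d c * d b) :=
        ((hRh b c).pow m).mul ((comp_hom hA (hF c)).pow (d b))
      have h2 : (S b c ^ m * bind₁ A (F b) ^ d c).IsHomogeneous (D b c * m + e * d c * d b) := by
        have := ((hSh b c).pow m).mul ((comp_hom hA (hF b)).pow (d c))
        rwa [show e * d b * d c = e * d c * d b by ring] at this
      have h3 : IsForm P := ⟨_, by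
        rw [hP]
        exact h1.sub h2⟩
      have h4 := hf.mem P h3 (by
        show aeval x P = 0
        rw [hP, map_sub, map_mul, map_mul, map_pow, map_pow, map_pow, map_pow, hAx (hF c),
          hAx (hF b), ← hRS b c]
        have h5 := hρ b c
        have h6 : (s ^ d c) ^ d b = (s ^ d b) ^ d c := by rw [← pow_mul, ← pow_mul, mul_comm]
        rw [mul_pow, mul_pow, mul_pow, h6]
        linear_combination aeval x (S b c) ^ m * (s ^ d b) ^ d c * h5) z
      rw [hP, map_sub, map_mul, map_mul, map_pow, map_pow, map_pow, map_pow, hgP, hgP,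
        hghP (hF c), hghP (hF b)] at h4
      have h6 : (p z ^ d c) ^ d b = (p z ^ d b) ^ d c := by rw [← pow_mul, ← pow_mul, mul_comm]
      rw [mul_pow, mul_pow _ _ (d c), h6] at h4
      have h7 : (p z ^ d b) ^ d c ≠ 0 := pow_ne_zero _ (pow_ne_zero _ hz)
      have h8 : (p z ^ d b) ^ d c * (eval (fun l => f l z) (R b c) ^ m *
          eval (fun i => h i z) (F c) ^ d b - eval (fun l => f l z) (S b c) ^ m *
          eval (fun i => h i z) (F b) ^ d c) = 0 := by
        linear_combination h4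
      exact (mul_eq_zero.1 h8).resolve_left h7
  have hFb : ∀ b, ∃ z, eval (fun i => h i z) (F b) ≠ 0 := by
    intro b
    obtain ⟨z, hz⟩ := hno (bind₁ A (F b)) ⟨_, comp_hom hA (hF b)⟩ (by
      rw [hAx (hF b)]
      exact mul_ne_zero (pow_ne_zero _ hs) (hne b))
    refine ⟨z, fun h0 => hz ?_⟩
    rw [hgP, hghP (hF b), h0, mul_zero]
  have hconst := fun z => const_of_roots hd hΦ hm₀ hF hFΦ hm
    (R := fun b c z => eval (fun l => f l z) (R b c))
    (S := fun b c z => eval (fun l => f l z) (S b c)) (fun b c => diff_form hf.hol _)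
    (fun b c => diff_form hf.hol _) hhd hh0 hVh' hrel hFb
    (fun b c => hno (S b c) ⟨_, hSh b c⟩ (hS0 b c)) z 0
  -- a form which vanishes on the curve
  obtain ⟨Q, hQ⟩ : ∃ Q : MvPolynomial (Fin (N + 1)) ℂ,
    Q = C (h j₀ 0) * A i₀ - C (h i₀ 0) * A j₀ := ⟨_, rfl⟩
  have hQh : Q.IsHomogeneous e := by
    have h1 := (isHomogeneous_C (Fin (N + 1)) (h j₀ 0)).mul (hA i₀)
    have h2 := (isHomogeneous_C (Fin (N + 1)) (h i₀ 0)).mul (hA j₀)
    rw [zero_add] at h1 h2
    rw [hQ]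
    exact h1.sub h2
  have hAf : ∀ i z, eval (fun l => f l z) (A i) = p z * h i z := by
    intro i z
    rw [← hgh, hg]
  by_cases hj : h j₀ 0 = 0
  · -- the coordinate `j₀` vanishes
    obtain ⟨z, hz⟩ := hno (A j₀) ⟨e, hA j₀⟩ (by
      rw [hAv]
      exact mul_ne_zero hs hj₀)
    apply hz
    obtain ⟨c, hc⟩ := hconst z
    rw [hAf, hc j₀, hj, mul_zero, mul_zero]
  · obtain ⟨z, hz⟩ := hno Q ⟨e, hQh⟩ (by
      rw [hQ, map_sub, map_mul, map_mul, hAv, hAv, aeval_C, aeval_C]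
      intro h0
      apply hij (h i₀ 0 / h j₀ 0)
      have h1 : algebraMap ℂ K (h j₀ 0) ≠ 0 := (map_ne_zero _).2 hj
      have h2 : s * (algebraMap ℂ K (h j₀ 0) * v i₀ - algebraMap ℂ K (h i₀ 0) * v j₀) = 0 := by
        linear_combination h0
      have h3 := (mul_eq_zero.1 h2).resolve_left hs
      rw [Algebra.smul_def, map_div₀]
      field_simp
      linear_combination h3)
    apply hz
    obtain ⟨c, hc⟩ := hconst z
    rw [hQ, map_sub, map_mul, map_mul, eval_C, eval_C, hAf, hAf, hc i₀, hc j₀]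
    ring


end Run7.h493.SR
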